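import Pool.Agent.H568R2.Defs

/-!
# Definitions: distillation by randomized circuits of constant depth

Boolean circuits (unbounded fan-in AND and OR gates, NOT gates, size = number of gates, depth of a
node) are `DomAC0.Circuit` from `Pool.Agent.H568R2.Defs`. Here a circuit is used with several
output nodes; its own `output` field is ignored.
-/

set_option autoImplicit false

namespace Pool.Agent.W2helper86.OD

open DomAC0

/-- PARITY: the bit strings with an odd number of ones. -/
def parityLang : Set (List Bool) := {w | Odd (w.count true)}

/-- SAT, with the following encoding. A CNF formula with `N` clauses and variables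
`0, ..., N - 1` is the bit string of length `2 * N ^ 2` whose bit number `2 * (c * N + v) + s`
(for `c, v < N` and `s = 0, 1`) says whether clause `c` contains the literal saying that variable `v` has the
truth value `s`. The string is in `cnfSat` if some assignment satisfies a literal of every
clause. -/
def cnfSat : Set (List Bool) :=
  {w | ∃ N : ℕ, w.length = 2 * N ^ 2 ∧ ∃ τ : ℕ → Bool, ∀ c < N, ∃ v < N, ∃ s : Bool,
    w.getD (2 * (c * N + v) + s.toNat) false = true ∧ τ v = s}

/-- `A` many-one reduces to `B` by nonuniform circuits of constant depth and polynomial size: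
for every input length `k` there is a circuit with `len ≤ k ^ c + c` output nodes, of size at most
`k ^ c + c`, all of whose output nodes have depth at most `c`, which maps `A` to `B`. -/
def AC0Reduces (A B : Set (List Bool)) : Prop :=
  ∃ c : ℕ, ∀ k : ℕ, ∃ (len : ℕ) (C : Circuit (Fin k)) (out : Fin len → Fin k ⊕ Fin C.size),
    len ≤ k ^ c + c ∧ C.size ≤ k ^ c + c ∧ (∀ l, C.nodeDepth (out l) ≤ c) ∧
    ∀ w : Fin k → Bool, List.ofFn w ∈ A ↔ List.ofFn (fun l => C.nodeVal w (out l)) ∈ B

/-- A randomized compressor of `m` instances of length `n` to `Q` bits: a uniformly random seed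
`r` from a finite nonempty set selects a circuit on the `m * n` input bits, `Q` output nodes of it,
and a target set of `Q`-bit strings (the language of the output instance, arbitrary). -/
structure Compressor (m n Q : ℕ) where
  Seed : Type
  finite : Finite Seed
  nonempty : Nonempty Seed
  circ : Seed → Circuit (Fin m × Fin n)
  out : (r : Seed) → Fin Q → (Fin m × Fin n) ⊕ Fin (circ r).size
  target : Seed → Set (Fin Q → Bool)

/-- With the seed `r`, the output on the instances `x 0, ..., x (m - 1)` lies in the target. -/
def Compressor.Says {m n Q : ℕ} (K : Compressor m n Q) (r : K.Seed)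
    (x : Fin m → Fin n → Bool) : Prop :=
  (fun t => (K.circ r).nodeVal (fun il => x il.1 il.2) (K.out r t)) ∈ K.target r

open Classical in
/-- The probability over the seed that the output lies in the target if and only if
`F (x 0 ∈ R, ..., x (m - 1) ∈ R)` is true. -/
noncomputable def Compressor.success {m n Q : ℕ} (K : Compressor m n Q) (R : Set (List Bool))
    (F : (Fin m → Bool) → Bool) (x : Fin m → Fin n → Bool) : ℝ :=
  (Nat.card {r : K.Seed // K.Says r x ↔ F (fun i => decide (List.ofFn (x i) ∈ R)) = true} : ℝ) /
    (Nat.card K.Seed : ℝ)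

/-- all output nodes of all circuits have depth at most `d` -/
def Compressor.DepthLE {m n Q : ℕ} (K : Compressor m n Q) (d : ℕ) : Prop :=
  ∀ r t, (K.circ r).nodeDepth (K.out r t) ≤ d

/-- all circuits have at most `s` gates -/
def Compressor.SizeLE {m n Q : ℕ} (K : Compressor m n Q) (s : ℝ) : Prop :=
  ∀ r, ((K.circ r).size : ℝ) ≤ s

/-- `R` has an `F`-distillation by nonuniform randomized circuits of constant depth and polynomial
size, with two-sided error and arbitrary targets: there are a constant `a` and `η > 0` such that
for all `m ≥ 1` and `n` there is a compressor of `m` instances of length `n` to at most `n ^ a + a`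
bits, of depth at most `a` and size at most `(m + n) ^ a + a`, which on every tuple of instances is
correct with probability at least `1 / 2 + η`. -/
def AC0Distillable (R : Set (List Bool)) (F : (m : ℕ) → (Fin m → Bool) → Bool) : Prop :=
  ∃ (a : ℕ) (η : ℝ), 0 < η ∧ ∀ m n : ℕ, 1 ≤ m →
    ∃ (Q : ℕ) (K : Compressor m n Q), Q ≤ n ^ a + a ∧ K.DepthLE a ∧
      K.SizeLE (((m + n) ^ a + a : ℕ) : ℝ) ∧
      ∀ x : Fin m → Fin n → Bool, 1 / 2 + η ≤ K.success R (F m) x

/-- the disjunction -/
def orFn (m : ℕ) (b : Fin m → Bool) : Bool := decide (∃ i, b i = true)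

/-- the conjunction -/
def andFn (m : ℕ) (b : Fin m → Bool) : Bool := decide (∀ i, b i = true)

/-- `F` changes its value at the point `b` when any one coordinate in `S` is flipped. -/
def SensitiveAt {m : ℕ} (F : (Fin m → Bool) → Bool) (b : Fin m → Bool)
    (S : Finset (Fin m)) : Prop :=
  ∀ i ∈ S, F (Function.update b i (!b i)) ≠ F b

/-- the sensitivity of `F m` is at least `m ^ γ` for all `m ≥ 1` -/
def PolySensitive (F : (m : ℕ) → (Fin m → Bool) → Bool) (γ : ℝ) : Prop :=
  ∀ m : ℕ, 1 ≤ m → ∃ (b : Fin m → Bool) (S : Finset (Fin m)),
    (m : ℝ) ^ γ ≤ (S.card : ℝ) ∧ SensitiveAt (F m) b S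

end Pool.Agent.W2helper86.OD
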