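import Mathlib

/-!
# The numerical inequalities
-/

set_option autoImplicit false

namespace Pool.Agent.W2helper86.OD

open Filter Topology

lemma tendsto_pow_mul_exp (δ b : ℝ) (hδ : 0 < δ) (hb : 0 < b) (c : ℕ) :
    Tendsto (fun x : ℝ => x ^ c * Real.exp (-b * x ^ δ)) atTop (𝓝 0) := by
  have h := (tendsto_rpow_mul_exp_neg_mul_atTop_nhds_zero ((c : ℝ) / δ) b hb).comp
    (tendsto_rpow_atTop hδ)
  refine h.congr' ?_
  filter_upwards [eventually_gt_atTop (0 : ℝ)] with x hx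
  simp only [Function.comp]
  rw [← Real.rpow_mul hx.le, mul_div_cancel₀ _ hδ.ne', Real.rpow_natCast]

theorem numeric (e c d : ℕ) (ε η : ℝ) (hε : 0 < ε) (hη : 0 < η) :
    ∃ δ : ℝ, 0 < δ ∧ ∃ k₀ : ℕ, ∀ k : ℕ, k₀ ≤ k → 1 ≤ k ∧ ∃ s : ℕ, 1 ≤ s ∧
      ((2 : ℝ) ^ ((k : ℝ) ^ δ) * e * ((k : ℝ) ^ c + c) + d * (2 : ℝ) ^ ((k : ℝ) ^ δ)) *
        (1 / 2) ^ (s + 1) ≤ η / 2 ∧
      (2 : ℝ) ^ ((k : ℝ) ^ δ) * (1 - (1 / (24 * (s : ℝ))) ^ (e + d)) ^ k ≤ η / 2 ∧
      (s : ℝ) ≤ η / 2 * (k : ℝ) ^ ε := by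
  set β : ℝ := min (ε / 2) (1 / ((e : ℝ) + d + 1)) with hβ
  have hβ0 : 0 < β := by
    rw [hβ]
    apply lt_min
    · linarith
    · positivity
  have hβε : β ≤ ε / 2 := min_le_left _ _
  have hβe : β ≤ 1 / ((e : ℝ) + d + 1) := min_le_right _ _
  have hβe' : β * (e + d) + β ≤ 1 := by
    have h1 : β * ((e : ℝ) + d + 1) ≤ 1 := by
      rw [le_div_iff₀ (by positivity)] at hβe
      exact hβe
    linarith
  set δ : ℝ := β / 2 with hδ
  have hδ0 : 0 < δ := by rw [hδ]; linarith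
  refine ⟨δ, hδ0, ?_⟩
  set c₀ : ℝ := (1 / 48) ^ (e + d) with hc₀
  have hc₀0 : 0 < c₀ := by positivity
  have hln2 : 0 < Real.log 2 := Real.log_pos (by norm_num)
  -- limits
  have L1 : ∀ᶠ x : ℝ in atTop,
      (e * (x ^ c + c) + d) * Real.exp (-Real.log 2 * x ^ δ) < η / 2 := by
    have h1 := tendsto_pow_mul_exp δ (Real.log 2) hδ0 hln2 c
    have h2 := tendsto_pow_mul_exp δ (Real.log 2) hδ0 hln2 0
    have h3 := (h1.const_mul (e : ℝ)).add (h2.const_mul ((e : ℝ) * c + d))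
    simp only [mul_zero, add_zero] at h3
    have h4 := h3.eventually (gt_mem_nhds (by linarith : (0 : ℝ) < η / 2))
    filter_upwards [h4] with x hx
    refine lt_of_eq_of_lt ?_ hx
    ring
  have L2 : ∀ᶠ x : ℝ in atTop, Real.exp (-1 * x ^ δ) < η / 2 := by
    have h2 := tendsto_pow_mul_exp δ 1 hδ0 one_pos 0
    simp only [pow_zero, one_mul] at h2
    exact h2.eventually (gt_mem_nhds (by linarith : (0 : ℝ) < η / 2))
  have L3 : ∀ᶠ x : ℝ in atTop, max 2 ((1 + Real.log 2) / c₀) ≤ x ^ δ :=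
    (tendsto_rpow_atTop hδ0).eventually (eventually_ge_atTop _)
  have L4 : ∀ᶠ x : ℝ in atTop, 4 / η ≤ x ^ (ε - β) :=
    (tendsto_rpow_atTop (by linarith)).eventually (eventually_ge_atTop _)
  have L := (((L1.and L2).and (L3.and L4)).and (eventually_ge_atTop (1 : ℝ)))
  have LN := tendsto_natCast_atTop_atTop.eventually L
  obtain ⟨k₀, hk₀⟩ := Filter.eventually_atTop.1 LN
  refine ⟨k₀, fun k hk => ?_⟩
  obtain ⟨⟨⟨h1, h2⟩, h3, h4⟩, h5⟩ := hk₀ k hk
  set x : ℝ := (k : ℝ) with hx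
  have hx0 : 0 < x := by linarith
  set u : ℝ := x ^ δ with hu
  have hu2 : 2 ≤ u := (le_max_left _ _).trans h3
  have huc : (1 + Real.log 2) / c₀ ≤ u := (le_max_right _ _).trans h3
  have huβ : x ^ β = u ^ 2 := by
    rw [hu, ← Real.rpow_natCast, ← Real.rpow_mul hx0.le, hδ]
    congr 1
    push_cast
    ring
  refine ⟨by rw [hx] at h5; exact_mod_cast h5, ⌈x ^ β⌉₊, ?_, ?_, ?_, ?_⟩
  · rw [Nat.one_le_ceil_iff]
    positivity
  · -- (A)
    set s : ℕ := ⌈x ^ β⌉₊ with hs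
    have hs1 : x ^ β ≤ s := Nat.le_ceil _
    have hpow : ((1 : ℝ) / 2) ^ (s + 1) ≤ Real.exp (-Real.log 2 * u ^ 2) := by
      have h6 : ((1 : ℝ) / 2) ^ (s + 1) = Real.exp (-Real.log 2 * ((s : ℝ) + 1)) := by
        rw [← Real.rpow_natCast, Real.rpow_def_of_pos (by norm_num)]
        congr 1
        rw [Real.log_div (by norm_num) (by norm_num), Real.log_one]
        push_cast
        ring
      rw [h6, Real.exp_le_exp]
      rw [huβ] at hs1
      nlinarith
    have h7 : (2 : ℝ) ^ u = Real.exp (Real.log 2 * u) := by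
      rw [Real.rpow_def_of_pos (by norm_num)]
    calc ((2 : ℝ) ^ u * e * (x ^ c + c) + d * (2 : ℝ) ^ u) * (1 / 2) ^ (s + 1)
        ≤ ((2 : ℝ) ^ u * e * (x ^ c + c) + d * (2 : ℝ) ^ u) *
          Real.exp (-Real.log 2 * u ^ 2) := by
          apply mul_le_mul_of_nonneg_left hpow
          positivity
      _ = (e * (x ^ c + c) + d) * (Real.exp (Real.log 2 * u) *
          Real.exp (-Real.log 2 * u ^ 2)) := by
          rw [h7]; ring
      _ ≤ (e * (x ^ c + c) + d) * Real.exp (-Real.log 2 * u) := by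
          apply mul_le_mul_of_nonneg_left _ (by positivity)
          rw [← Real.exp_add, Real.exp_le_exp]
          have h8 : 0 ≤ Real.log 2 * (u * (u - 2)) :=
            mul_nonneg hln2.le (mul_nonneg (by linarith) (by linarith))
          nlinarith
      _ ≤ η / 2 := h1.le
  · -- (B)
    set s : ℕ := ⌈x ^ β⌉₊ with hs
    have hxβ1 : 1 ≤ x ^ β := Real.one_le_rpow h5 hβ0.le
    have hs2 : (s : ℝ) ≤ 2 * x ^ β := by
      have := (Nat.ceil_lt_add_one (by positivity : (0 : ℝ) ≤ x ^ β)).le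
      linarith
    have hs0 : (0 : ℝ) < s := by
      have : x ^ β ≤ s := Nat.le_ceil _
      linarith
    set p : ℝ := (1 / (24 * (s : ℝ))) ^ (e + d) with hp
    have hp1 : p ≤ 1 := by
      rw [hp]
      apply pow_le_one₀ (by positivity)
      rw [div_le_one (by positivity)]
      have : x ^ β ≤ s := Nat.le_ceil _
      linarith
    have hpk : c₀ * u ^ 2 ≤ p * x := by
      have h6 : (1 / (48 * x ^ β)) ^ (e + d) ≤ p := by
        rw [hp]
        apply pow_le_pow_left₀ (by positivity)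
        apply one_div_le_one_div_of_le (by positivity)
        linarith
      have h7 : (1 / (48 * x ^ β)) ^ (e + d) = c₀ * x ^ (-(β * (e + d))) := by
        rw [hc₀, one_div, mul_inv, mul_pow, one_div, Real.rpow_neg hx0.le]
        congr 1
        rw [inv_pow]
        congr 1
        rw [← Real.rpow_natCast, ← Real.rpow_mul hx0.le]
        push_cast
        ring_nf
      have h8 : x ^ (-(β * ((e : ℝ) + d))) * x = x ^ (1 - β * (e + d)) := by
        rw [← Real.rpow_add_one hx0.ne']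
        congr 1
        ring
      have h9 : x ^ β ≤ x ^ (1 - β * ((e : ℝ) + d)) :=
        Real.rpow_le_rpow_of_exponent_le h5 (by linarith)
      calc c₀ * u ^ 2 = c₀ * x ^ β := by rw [huβ]
        _ ≤ c₀ * x ^ (1 - β * ((e : ℝ) + d)) := mul_le_mul_of_nonneg_left h9 hc₀0.le
        _ = (c₀ * x ^ (-(β * ((e : ℝ) + d)))) * x := by rw [mul_assoc, h8]
        _ ≤ p * x := by
          apply mul_le_mul_of_nonneg_right _ hx0.le
          rw [← h7]
          exact h6
    have h10 : (1 - p) ^ k ≤ Real.exp (-(c₀ * u ^ 2)) := by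
      have h11 : (1 - p) ^ k ≤ (Real.exp (-p)) ^ k := by
        apply pow_le_pow_left₀ (by linarith)
        have := Real.add_one_le_exp (-p)
        linarith
      refine h11.trans ?_
      rw [← Real.exp_nat_mul, Real.exp_le_exp]
      have : (k : ℝ) * -p = -(p * x) := by rw [hx]; ring
      rw [this]
      linarith
    calc (2 : ℝ) ^ u * (1 - p) ^ k ≤ (2 : ℝ) ^ u * Real.exp (-(c₀ * u ^ 2)) :=
          mul_le_mul_of_nonneg_left h10 (by positivity)
      _ = Real.exp (Real.log 2 * u + -(c₀ * u ^ 2)) := by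
          rw [Real.exp_add, Real.rpow_def_of_pos (by norm_num)]
      _ ≤ Real.exp (-1 * u) := by
          rw [Real.exp_le_exp]
          rw [div_le_iff₀ hc₀0] at huc
          nlinarith
      _ ≤ η / 2 := h2.le
  · -- (C)
    have hxβ1 : 1 ≤ x ^ β := Real.one_le_rpow h5 hβ0.le
    have hs2 : ((⌈x ^ β⌉₊ : ℕ) : ℝ) ≤ 2 * x ^ β := by
      have := (Nat.ceil_lt_add_one (by positivity : (0 : ℝ) ≤ x ^ β)).le
      linarith
    refine hs2.trans ?_
    have h6 : x ^ ε = x ^ (ε - β) * x ^ β := by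
      rw [← Real.rpow_add hx0]
      congr 1
      ring
    rw [h6]
    rw [div_le_iff₀ hη] at h4
    have h7 : 0 < x ^ β := by positivity
    nlinarith

end Pool.Agent.W2helper86.OD
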