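import Pool.Agent.W2helper86.OD.Main
import Pool.Agent.W2helper86.OD.Num
import Pool.Agent.W2helper86.OD.Defs

/-!
# The asymptotic statement
-/

set_option autoImplicit false

namespace Pool.Agent.W2helper86.OD

open Finset DomAC0 H568R2 Pool.Agent.TH163 Pool.Agent.TH163.AC3

lemma fl_eq_update {m : ℕ} (b : Fin m → Bool) (i : Fin m) :
    fl b i = Function.update b i (!b i) := by
  funext j
  unfold fl
  by_cases hj : j = i
  · subst hj
    simp
  · simp [hj]

lemma card_EE_eq {m k : ℕ} (hk : 0 < k) (b c : Fin m → Bool) :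
    ((EE b : Finset (Fin m × Fin k → Bool)).card : ℝ) =
      ((EE c : Finset (Fin m × Fin k → Bool)).card : ℝ) := by
  have h := sum_EE (k := k) (fun _ => ⟨0, hk⟩) b c (fun _ => (1 : ℝ))
  simpa using h

lemma card_EE_pos {m k : ℕ} (hk : 0 < k) (b : Fin m → Bool) :
    0 < ((EE b : Finset (Fin m × Fin k → Bool)).card : ℝ) := by
  have h := sum_univ_EE (k := k) (fun _ => ⟨0, hk⟩) b (fun _ => (1 : ℝ)) (by intro _ _; rfl)
  simp only [Finset.sum_const, nsmul_eq_mul, mul_one] at h
  have h3 : (0 : ℝ) < ((univ : Finset (Fin m × Fin k → Bool)).card : ℝ) := by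
    exact_mod_cast Finset.card_pos.2 ⟨fun _ => false, Finset.mem_univ _⟩
  rw [h] at h3
  by_contra hn
  have : ((EE b : Finset (Fin m × Fin k → Bool)).card : ℝ) ≤ 0 := not_lt.1 hn
  have h4 : (0 : ℝ) < 2 ^ m := by positivity
  nlinarith

open Classical in
/-- the composition of a compressor with a reduction from parity fails somewhere -/
theorem core (e c d : ℕ) (ε η : ℝ) (hε : 0 < ε) (hη : 0 < η) :
    ∃ δ : ℝ, 0 < δ ∧ ∃ k₀ : ℕ, ∀ k : ℕ, k₀ ≤ k →
      ∀ (R : Set (List Bool)) (n ν : ℕ) (π : (Fin k → Bool) → (Fin ν → Bool)) (G : Circuit (Fin ν))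
        (o : Fin n → Fin ν ⊕ Fin G.size), IsProj π → (∀ l, G.nodeDepth (o l) ≤ e) →
        G.size ≤ k ^ c + c →
        (∀ y : Fin k → Bool, List.ofFn (fun l => G.nodeVal (π y) (o l)) ∈ R ↔ par y = true) →
      ∀ (m Q : ℕ) (F : (Fin m → Bool) → Bool) (b : Fin m → Bool) (S : Finset (Fin m)),
        (m : ℝ) ≤ 2 ^ ((k : ℝ) ^ δ) → S.Nonempty → (Q : ℝ) * (k : ℝ) ^ ε ≤ S.card →
        SensitiveAt F b S →
      ∀ K : Compressor m n Q, K.DepthLE d → K.SizeLE (2 ^ ((k : ℝ) ^ δ)) →
        ∃ x : Fin m → Fin n → Bool, K.success R F x < 1 / 2 + η := by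
  obtain ⟨δ, hδ, k₀, hk₀⟩ := numeric e c d ε η hε hη
  refine ⟨δ, hδ, k₀, ?_⟩
  intro k hk R n ν π G o hπ ho hGs hspec m Q F b S hm hSne hQ hsens K hKd hKs
  obtain ⟨hk1, s, hs1, hA, hB, hC⟩ := hk₀ k hk
  by_contra hcon
  push Not at hcon
  have hk0 : 0 < k := hk1
  haveI := K.finite
  haveI := K.nonempty
  letI := Fintype.ofFinite K.Seed
  -- the inputs
  set X : (Fin m × Fin k → Bool) → (Fin m → Fin n → Bool) := fun y => inst π G o y with hX
  set Out : K.Seed → (Fin m × Fin k → Bool) → (Fin Q → Bool) := fun r y t =>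
    (K.circ r).nodeVal (fun il => inst π G o y il.1 il.2) (K.out r t) with hOut
  have hmem : ∀ y : Fin m × Fin k → Bool, (fun i => decide (List.ofFn (X y i) ∈ R)) = pars y := by
    intro y
    funext i
    unfold pars
    have h := hspec (fun a => y (i, a))
    rw [Bool.eq_iff_iff, decide_eq_true_eq]
    exact h
  have hok : ∀ (r : K.Seed) (y : Fin m × Fin k → Bool),
      (K.Says r (X y) ↔ F (fun i => decide (List.ofFn (X y i) ∈ R)) = true) ↔
      Ok (Out r) (K.target r) F y := by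
    intro r y
    rw [hmem y]
    rfl
  have hsucc : ∀ y : Fin m × Fin k → Bool, K.success R F (X y) =
      (∑ r : K.Seed, ind (Ok (Out r) (K.target r) F y)) / (Fintype.card K.Seed : ℝ) := by
    intro y
    unfold Compressor.success
    rw [Nat.card_eq_fintype_card, Nat.card_eq_fintype_card]
    congr 1
    rw [Fintype.card_subtype, Finset.card_filter]
    push_cast
    refine Finset.sum_congr rfl fun r _ => ?_
    rw [ind_eq]
    by_cases h : Ok (Out r) (K.target r) F y
    · rw [if_pos h, if_pos ((hok r y).2 h)]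
    · rw [if_neg h, if_neg (fun h' => h ((hok r y).1 h'))]
  set p : ℝ := (1 / (24 * (s : ℝ))) ^ (e + d) with hp
  have hs0 : (0 : ℝ) < s := by exact_mod_cast hs1
  have hs1' : (1 : ℝ) ≤ s := by exact_mod_cast hs1
  have hq0 : 0 ≤ 1 / (24 * (s : ℝ)) := by positivity
  have hq1 : 1 / (24 * (s : ℝ)) ≤ 1 / 3 := by
    apply one_div_le_one_div_of_le (by norm_num)
    linarith
  have hp0 : 0 ≤ p := pow_nonneg hq0 _
  have hp1 : p ≤ 1 := pow_le_one₀ hq0 (by linarith)
  set Ecard : ℝ := ((EE b : Finset (Fin m × Fin k → Bool)).card : ℝ) with hE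
  have hEpos : 0 < Ecard := card_EE_pos hk0 b
  have hScard : (0 : ℝ) < S.card := by exact_mod_cast hSne.card_pos
  -- upper bound for each seed
  have hup : ∀ r : K.Seed, S.card * ∑ x ∈ EE b, ind (Ok (Out r) (K.target r) F x) +
      ∑ i ∈ S, ∑ x ∈ EE (fl b i), ind (Ok (Out r) (K.target r) F x) ≤
      Ecard * (S.card * (1 + (3 / 2) * η)) := by
    intro r
    have h1 := avg_bound hk0 (Out r) (K.target r) F b S (by
      intro i hi
      rw [fl_eq_update]
      exact hsens i hi) s hp0 hp1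
    refine h1.trans ?_
    apply mul_le_mul_of_nonneg_left _ hEpos.le
    -- the outputs
    have hQs : (Q : ℝ) * s ≤ S.card * (η / 2) := by
      calc (Q : ℝ) * s ≤ Q * (η / 2 * (k : ℝ) ^ ε) := by
            apply mul_le_mul_of_nonneg_left hC (by positivity)
        _ = (Q * (k : ℝ) ^ ε) * (η / 2) := by ring
        _ ≤ S.card * (η / 2) := mul_le_mul_of_nonneg_right hQ (by linarith)
    -- hitting
    have hhit : Ex (bw p) (fun A : Fin m × Fin k → Bool => ind (¬ Hit A)) ≤ η / 2 := by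
      refine (hit_bound hp0 hp1).trans (le_trans ?_ hB)
      apply mul_le_mul_of_nonneg_right hm
      exact pow_nonneg (by linarith) _
    -- bad restrictions
    have hbad : Ex (wq p) (fun ρ : Restr (Fin m × Fin k) => ind (¬ GoodR (Out r) s ρ)) ≤
        η / 2 := by
      have h2 := bad_bound (k := k) (K.circ r) (K.out r) (hKd r) hπ G o ho hq0 hq1 hs1
      refine h2.trans (le_trans ?_ hA)
      have h12 : 12 * (s : ℝ) * (1 / (24 * s)) = 1 / 2 := by
        field_simp
        norm_num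
      rw [h12]
      apply mul_le_mul_of_nonneg_right _ (by positivity)
      have h3 : (G.size : ℝ) ≤ (k : ℝ) ^ c + c := by exact_mod_cast hGs
      have h4 : ((K.circ r).size : ℝ) ≤ 2 ^ ((k : ℝ) ^ δ) := hKs r
      have h5 : (m : ℝ) * e * G.size ≤ 2 ^ ((k : ℝ) ^ δ) * e * ((k : ℝ) ^ c + c) := by
        apply mul_le_mul _ h3 (by positivity) (by positivity)
        exact mul_le_mul_of_nonneg_right hm (by positivity)
      have h6 : (d : ℝ) * (K.circ r).size ≤ d * 2 ^ ((k : ℝ) ^ δ) :=
        mul_le_mul_of_nonneg_left h4 (by positivity)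
      linarith
    have h7 := mul_le_mul_of_nonneg_left hhit hScard.le
    have h8 := mul_le_mul_of_nonneg_left hbad hScard.le
    nlinarith
  -- lower bound from the success probability
  have hN : (0 : ℝ) < Fintype.card K.Seed := by exact_mod_cast Fintype.card_pos
  have hlow : ∀ y : Fin m × Fin k → Bool, (1 / 2 + η) * Fintype.card K.Seed ≤
      ∑ r : K.Seed, ind (Ok (Out r) (K.target r) F y) := by
    intro y
    have := hcon (X y)
    rw [hsucc y, le_div_iff₀ hN] at this
    exact this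
  have hsum : ∑ r : K.Seed, (S.card * ∑ x ∈ EE b, ind (Ok (Out r) (K.target r) F x) +
      ∑ i ∈ S, ∑ x ∈ EE (fl b i), ind (Ok (Out r) (K.target r) F x)) =
      S.card * ∑ x ∈ EE b, ∑ r : K.Seed, ind (Ok (Out r) (K.target r) F x) +
      ∑ i ∈ S, ∑ x ∈ EE (fl b i), ∑ r : K.Seed, ind (Ok (Out r) (K.target r) F x) := by
    rw [Finset.sum_add_distrib, ← Finset.mul_sum, Finset.sum_comm]
    congr 1
    rw [Finset.sum_comm]
    refine Finset.sum_congr rfl fun i _ => ?_
    rw [Finset.sum_comm]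
  have h9 : ∑ r : K.Seed, (S.card * ∑ x ∈ EE b, ind (Ok (Out r) (K.target r) F x) +
      ∑ i ∈ S, ∑ x ∈ EE (fl b i), ind (Ok (Out r) (K.target r) F x)) ≤
      Fintype.card K.Seed * (Ecard * (S.card * (1 + (3 / 2) * η))) := by
    refine (Finset.sum_le_card_nsmul _ _ _ fun r _ => hup r).trans ?_
    rw [nsmul_eq_mul, Finset.card_univ]
  have h10 : S.card * (Ecard * ((1 / 2 + η) * Fintype.card K.Seed)) ≤
      S.card * ∑ x ∈ EE b, ∑ r : K.Seed, ind (Ok (Out r) (K.target r) F x) := by
    apply mul_le_mul_of_nonneg_left _ hScard.le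
    have := Finset.card_nsmul_le_sum (EE b : Finset (Fin m × Fin k → Bool))
      (fun x => ∑ r : K.Seed, ind (Ok (Out r) (K.target r) F x)) _ (fun x _ => hlow x)
    rw [nsmul_eq_mul] at this
    exact this
  have h11 : S.card * (Ecard * ((1 / 2 + η) * Fintype.card K.Seed)) ≤
      ∑ i ∈ S, ∑ x ∈ EE (fl b i), ∑ r : K.Seed, ind (Ok (Out r) (K.target r) F x) := by
    have := Finset.card_nsmul_le_sum S
      (fun i => ∑ x ∈ EE (fl b i), ∑ r : K.Seed, ind (Ok (Out r) (K.target r) F x))
      (Ecard * ((1 / 2 + η) * Fintype.card K.Seed)) (by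
        intro i _
        have h := Finset.card_nsmul_le_sum (EE (fl b i) : Finset (Fin m × Fin k → Bool))
          (fun x => ∑ r : K.Seed, ind (Ok (Out r) (K.target r) F x)) _ (fun x _ => hlow x)
        rw [nsmul_eq_mul, card_EE_eq hk0 (fl b i) b] at h
        exact h)
    rw [nsmul_eq_mul] at this
    exact this
  rw [hsum] at h9
  have h12 : 0 < (S.card : ℝ) * (Ecard * Fintype.card K.Seed) := by positivity
  nlinarith

end Pool.Agent.W2helper86.OD
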