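import Pool.Agent.W2helper86.OD.Col

/-!
# The average-case bound for functions of blockwise parities
-/

set_option autoImplicit false

namespace Pool.Agent.W2helper86.OD

open Finset DomAC0 H568R2 Pool.Agent.TH163 Pool.Agent.TH163.AC3

/-- the parity of a bit string -/
def par {k : ℕ} (x : Fin k → Bool) : Bool :=
  decide (Odd (univ.filter (fun l => x l = true)).card)

section Blocks
variable {m k : ℕ}

/-- the parities of the blocks -/
def pars (x : Fin m × Fin k → Bool) : Fin m → Bool := fun i => par (fun l => x (i, l))

/-- flip the bit `a i` of each block `i` with `v i = true` -/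
def flipAt (a : Fin m → Fin k) (v : Fin m → Bool) (x : Fin m × Fin k → Bool) :
    Fin m × Fin k → Bool :=
  fun il => if v il.1 = true ∧ il.2 = a il.1 then !x il else x il

lemma flipAt_flipAt (a : Fin m → Fin k) (v : Fin m → Bool) (x : Fin m × Fin k → Bool) :
    flipAt a v (flipAt a v x) = x := by
  funext il
  unfold flipAt
  by_cases h : v il.1 = true ∧ il.2 = a il.1
  · simp [h]
  · simp [h]

lemma par_update (x : Fin k → Bool) (a : Fin k) : par (Function.update x a (!x a)) = !par x := by
  classical
  unfold par
  rcases hx : x a with _ | _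
  · have h1 : (univ.filter (fun l => Function.update x a (!false) l = true)) =
        insert a (univ.filter (fun l => x l = true)) := by
      ext l
      simp only [Finset.mem_filter, Finset.mem_univ, true_and, Finset.mem_insert]
      by_cases hl : l = a
      · subst hl
        simp
      · simp [hl]
    have h2 : a ∉ (univ.filter (fun l => x l = true)) := by simp [hx]
    rw [h1, Finset.card_insert_of_notMem h2]
    simp only [Nat.odd_add_one, decide_not]
  · have h1 : (univ.filter (fun l => x l = true)) =
        insert a (univ.filter (fun l => Function.update x a (!true) l = true)) := by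
      ext l
      simp only [Finset.mem_filter, Finset.mem_univ, true_and, Finset.mem_insert]
      by_cases hl : l = a
      · subst hl
        simp [hx]
      · simp [hl]
    have h2 : a ∉ (univ.filter (fun l => Function.update x a (!true) l = true)) := by simp
    rw [h1, Finset.card_insert_of_notMem h2]
    simp only [Nat.odd_add_one, decide_not, Bool.not_not]

lemma pars_flipAt (a : Fin m → Fin k) (v : Fin m → Bool) (x : Fin m × Fin k → Bool) :
    pars (flipAt a v x) = fun i => xor (pars x i) (v i) := by
  funext i
  unfold pars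
  rcases hv : v i with _ | _
  · have : (fun l => flipAt a v x (i, l)) = fun l => x (i, l) := by
      funext l
      simp [flipAt, hv]
    rw [this]
    simp
  · have : (fun l => flipAt a v x (i, l)) =
        Function.update (fun l => x (i, l)) (a i) (!x (i, a i)) := by
      funext l
      by_cases hl : l = a i
      · subst hl
        simp [flipAt, hv]
      · simp [flipAt, hv, hl]
    rw [this]
    have h2 := par_update (fun l => x (i, l)) (a i)
    rw [h2]
    simp

/-- the inputs with the given parities -/
def EE (b : Fin m → Bool) : Finset (Fin m × Fin k → Bool) := univ.filter (fun x => pars x = b)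

lemma sum_EE (a : Fin m → Fin k) (b c : Fin m → Bool) (g : (Fin m × Fin k → Bool) → ℝ) :
    ∑ x ∈ EE b, g (flipAt a (fun i => xor (b i) (c i)) x) = ∑ x ∈ EE c, g x := by
  refine Finset.sum_nbij' (flipAt a (fun i => xor (b i) (c i)))
    (flipAt a (fun i => xor (b i) (c i))) ?_ ?_ ?_ ?_ ?_
  · intro x hx
    simp only [EE, Finset.mem_filter, Finset.mem_univ, true_and] at hx ⊢
    rw [pars_flipAt, hx]
    funext i
    rcases b i with _ | _ <;> rcases c i with _ | _ <;> rfl
  · intro x hx
    simp only [EE, Finset.mem_filter, Finset.mem_univ, true_and] at hx ⊢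
    rw [pars_flipAt, hx]
    funext i
    rcases b i with _ | _ <;> rcases c i with _ | _ <;> rfl
  · intro x _
    exact flipAt_flipAt _ _ _
  · intro x _
    exact flipAt_flipAt _ _ _
  · intro x _
    rfl

lemma sum_univ_EE (a : Fin m → Fin k) (b : Fin m → Bool) (g : (Fin m × Fin k → Bool) → ℝ)
    (hg : ∀ v x, g (flipAt a v x) = g x) : ∑ x, g x = 2 ^ m * ∑ x ∈ EE b, g x := by
  classical
  have h1 : ∑ x, g x = ∑ c : Fin m → Bool, ∑ x ∈ EE c, g x := by
    unfold EE
    rw [Finset.sum_fiberwise]
  rw [h1]
  have h2 : ∀ c : Fin m → Bool, ∑ x ∈ EE c, g x = ∑ x ∈ EE b, g x := by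
    intro c
    rw [← sum_EE a b c g]
    exact Finset.sum_congr rfl fun x _ => hg _ _
  rw [Finset.sum_congr rfl fun c _ => h2 c]
  rw [Finset.sum_const, nsmul_eq_mul]
  simp

/-- the indicator of a proposition -/
noncomputable def ind (p : Prop) : ℝ := open Classical in if p then 1 else 0

lemma ind_nonneg (p : Prop) : 0 ≤ ind p := by unfold ind; split_ifs <;> norm_num

lemma ind_le_one (p : Prop) : ind p ≤ 1 := by unfold ind; split_ifs <;> norm_num

lemma ind_true {p : Prop} (h : p) : ind p = 1 := by unfold ind; rw [if_pos h]

lemma ind_false {p : Prop} (h : ¬ p) : ind p = 0 := by unfold ind; rw [if_neg h]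

lemma ind_eq (p : Prop) [Decidable p] : ind p = if p then 1 else 0 := by
  unfold ind
  by_cases h : p
  · rw [if_pos h, if_pos h]
  · rw [if_neg h, if_neg h]

/-- flip one bit of the vector of parities -/
def fl (b : Fin m → Bool) (i : Fin m) : Fin m → Bool := fun j => xor (b j) (decide (j = i))

/-- the indicator vector of `i` -/
def ev (i : Fin m) : Fin m → Bool := fun j => decide (j = i)

variable {Q : ℕ}

/-- the answer on `x` is correct -/
def Ok (Out : (Fin m × Fin k → Bool) → (Fin Q → Bool)) (T : Set (Fin Q → Bool))
    (F : (Fin m → Bool) → Bool) (x : Fin m × Fin k → Bool) : Prop :=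
  Out x ∈ T ↔ F (pars x) = true

/-- all outputs have shallow decision trees -/
def GoodR (Out : (Fin m × Fin k → Bool) → (Fin Q → Bool)) (s : ℕ)
    (ρ : Restr (Fin m × Fin k)) : Prop :=
  ∀ t : Fin Q, HasDT s (rs (fun x => Out x t) ρ)

/-- the restriction with the star set `A` agreeing with `x` -/
def mk (A x : Fin m × Fin k → Bool) : Restr (Fin m × Fin k) :=
  fun il => if A il = true then none else some (x il)

/-- every block has a star -/
def Hit (A : Fin m × Fin k → Bool) : Prop := ∀ i, ∃ l, A (i, l) = true

open Classical in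
/-- a star of each block -/
noncomputable def pick (l₀ : Fin k) (A : Fin m × Fin k → Bool) : Fin m → Fin k :=
  fun i => if h : ∃ l, A (i, l) = true then h.choose else l₀

lemma pick_spec {l₀ : Fin k} {A : Fin m × Fin k → Bool} (hA : Hit A) (i : Fin m) :
    A (i, pick l₀ A i) = true := by
  unfold pick
  rw [dif_pos (hA i)]
  exact (hA i).choose_spec

lemma ov_mk {A x y : Fin m × Fin k → Bool} (h : ∀ il, A il ≠ true → y il = x il) :
    ov (mk A x) y = y := by
  funext il
  unfold ov mk
  by_cases hA : A il = true
  · simp [hA]
  · simp only [hA, Option.getD]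
    exact (h il hA).symm

lemma few_changes {Out : (Fin m × Fin k → Bool) → (Fin Q → Bool)} {s : ℕ}
    {A x : Fin m × Fin k → Bool} (hG : GoodR Out s (mk A x)) {a : Fin m → Fin k}
    (ha : ∀ i, A (i, a i) = true) :
    ((univ.filter (fun i : Fin m => Out (flipAt a (ev i) x) ≠ Out x)).card : ℝ) ≤ Q * s := by
  classical
  choose t ht he using hG
  set R : Finset (Fin m × Fin k) := univ.biUnion (fun j : Fin Q => (t j).reads x) with hR
  have hRc : R.card ≤ Q * s := by
    refine Finset.card_biUnion_le.trans ?_
    refine (Finset.sum_le_card_nsmul _ _ s fun j _ => ((t j).card_reads x).trans (ht j)).trans ?_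
    simp
  have hinj : (univ.filter (fun i : Fin m => Out (flipAt a (ev i) x) ≠ Out x)).card ≤
      R.card := by
    refine Finset.card_le_card_of_injOn (fun i => (i, a i)) ?_ ?_
    · intro i hi
      have hi' : Out (flipAt a (ev i) x) ≠ Out x := by
        simpa using hi
      by_contra hn
      apply hi'
      funext j
      have hnr : (i, a i) ∉ (t j).reads x := by
        intro hmem
        apply hn
        rw [hR]
        exact Finset.mem_coe.2 (Finset.mem_biUnion.2 ⟨j, Finset.mem_univ _, hmem⟩)
      have h1 : (t j).eval (flipAt a (ev i) x) = (t j).eval x := by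
        refine ((t j).congr x (flipAt a (ev i) x) ?_).1
        intro il hil
        unfold flipAt
        rw [if_neg]
        rintro ⟨h2, h3⟩
        apply hnr
        have h4 : il.1 = i := by simpa [ev] using h2
        have h5 : il = (i, a i) := by
          rw [← h4, ← h3]
        rwa [h5] at hil
      rw [he j, he j] at h1
      have h6 : ov (mk A x) (flipAt a (ev i) x) = flipAt a (ev i) x := by
        apply ov_mk
        intro il hil
        unfold flipAt
        rw [if_neg]
        rintro ⟨h2, h3⟩
        apply hil
        have := ha il.1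
        rw [← h3] at this
        exact this
      have h7 : ov (mk A x) x = x := ov_mk (fun _ _ => rfl)
      simp only [rs] at h1
      rw [h6, h7] at h1
      exact h1
    · intro i _ i' _ h
      exact (Prod.mk.inj h).1
  exact_mod_cast hinj.trans hRc

/-- the weight of a random star set -/
noncomputable def bw (p : ℝ) : Bool → ℝ := fun a => if a = true then p else 1 - p

/-- the uniform weight -/
noncomputable def uw : Bool → ℝ := fun _ => 1 / 2

lemma bw_nonneg {p : ℝ} (h0 : 0 ≤ p) (h1 : p ≤ 1) (a : Bool) : 0 ≤ bw p a := by
  unfold bw; split_ifs <;> linarith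

lemma bw_sum (p : ℝ) : ∑ a, bw p a = 1 := by
  simp [bw]

lemma Ex_uw (g : (Fin m × Fin k → Bool) → ℝ) :
    Ex uw g = (1 / 2) ^ (m * k) * ∑ x, g x := by
  unfold Ex
  rw [Finset.mul_sum]
  refine Finset.sum_congr rfl fun x _ => ?_
  congr 1
  unfold uw
  rw [Finset.prod_const]
  simp

lemma Ex_wq (p : ℝ) (G : Restr (Fin m × Fin k) → ℝ) :
    Ex (wq p) G = Ex (bw p) (fun A => (1 / 2) ^ (m * k) * ∑ x, G (mk A x)) := by
  classical
  have h := Ex_prod (I := Fin m × Fin k) (bw p) uw
    (fun ω => G (fun i => if (ω i).1 = true then none else some (ω i).2))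
  have h2 := Ex_push (I := Fin m × Fin k)
    (fun c : Bool × Bool => if c.1 = true then none else some c.2)
    (fun c => bw p c.1 * uw c.2) (wq p) (by
      intro b
      rw [Finset.sum_filter, Fintype.sum_prod_type]
      simp only [Fintype.sum_bool]
      rcases b with _ | _ | _ <;> simp [wq, bw, uw] <;> ring) G
  rw [← h2, h]
  congr 1
  funext A
  rw [Ex_uw]
  rfl

/-- **the average-case bound** -/
theorem avg_bound (hk : 0 < k) (Out : (Fin m × Fin k → Bool) → (Fin Q → Bool))
    (T : Set (Fin Q → Bool)) (F : (Fin m → Bool) → Bool) (b : Fin m → Bool)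
    (S : Finset (Fin m)) (hS : ∀ i ∈ S, F (fl b i) ≠ F b) (s : ℕ) {p : ℝ} (h0 : 0 ≤ p)
    (h1 : p ≤ 1) :
    S.card * ∑ x ∈ EE b, ind (Ok Out T F x) +
      ∑ i ∈ S, ∑ x ∈ EE (fl b i), ind (Ok Out T F x) ≤
    ((EE b : Finset (Fin m × Fin k → Bool)).card : ℝ) *
      (S.card + Q * s + S.card * Ex (bw p) (fun A : Fin m × Fin k → Bool => ind (¬ Hit A)) +
        S.card * Ex (wq p) (fun ρ : Restr (Fin m × Fin k) => ind (¬ GoodR Out s ρ))) := by
  classical
  set L : ℝ := S.card * ∑ x ∈ EE b, ind (Ok Out T F x) +
      ∑ i ∈ S, ∑ x ∈ EE (fl b i), ind (Ok Out T F x) with hL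
  set l₀ : Fin k := ⟨0, hk⟩
  -- rewriting of the left side for every star set
  have hLA : ∀ A : Fin m × Fin k → Bool, L = ∑ x ∈ EE b, ∑ i ∈ S,
      (ind (Ok Out T F x) + ind (Ok Out T F (flipAt (pick l₀ A) (ev i) x))) := by
    intro A
    simp only [Finset.sum_add_distrib]
    rw [Finset.sum_comm (s := EE b) (t := S)
      (f := fun x i => ind (Ok Out T F (flipAt (pick l₀ A) (ev i) x)))]
    rw [hL]
    congr 1
    · simp only [Finset.sum_const, nsmul_eq_mul]
      rw [Finset.mul_sum]
    · refine Finset.sum_congr rfl fun i _ => ?_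
      rw [← sum_EE (pick l₀ A) b (fl b i) (fun x => ind (Ok Out T F x))]
      refine Finset.sum_congr rfl fun x _ => ?_
      congr 3
      funext j
      unfold fl ev
      rcases b j with _ | _ <;> simp
  -- the pointwise bound
  have hpt : ∀ A : Fin m × Fin k → Bool, ∀ x ∈ (EE b : Finset (Fin m × Fin k → Bool)),
      ∑ i ∈ S, (ind (Ok Out T F x) + ind (Ok Out T F (flipAt (pick l₀ A) (ev i) x))) ≤
      S.card + Q * s + S.card * ind (¬ Hit A) +
        S.card * ind (Hit A ∧ ¬ GoodR Out s (mk A x)) := by
    intro A x hx
    have hQs : (0 : ℝ) ≤ Q * s := by positivity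
    have hSn : (0 : ℝ) ≤ S.card := by positivity
    have htriv : ∑ i ∈ S, (ind (Ok Out T F x) +
        ind (Ok Out T F (flipAt (pick l₀ A) (ev i) x))) ≤ S.card * 2 := by
      refine (Finset.sum_le_card_nsmul _ _ 2 fun i _ => ?_).trans (by rw [nsmul_eq_mul])
      have h1 := ind_le_one (Ok Out T F x)
      have h2 := ind_le_one (Ok Out T F (flipAt (pick l₀ A) (ev i) x))
      linarith
    by_cases hA : Hit A
    · by_cases hG : GoodR Out s (mk A x)
      · rw [ind_false (p := ¬ Hit A) (by simpa using hA),
          ind_false (p := Hit A ∧ ¬ GoodR Out s (mk A x)) (by tauto)]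
        have hch := few_changes hG (a := pick l₀ A) (fun i => pick_spec hA i)
        have hpx : pars x = b := by
          simpa [EE] using hx
        have hterm : ∀ i ∈ S, ind (Ok Out T F x) +
            ind (Ok Out T F (flipAt (pick l₀ A) (ev i) x)) ≤
            1 + ind (Out (flipAt (pick l₀ A) (ev i) x) ≠ Out x) := by
          intro i hi
          by_cases hc : Out (flipAt (pick l₀ A) (ev i) x) = Out x
          · rw [ind_false (p := Out (flipAt (pick l₀ A) (ev i) x) ≠ Out x) (by simpa using hc)]
            have hF := hS i hi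
            have h3 : Ok Out T F x ↔ (Out x ∈ T ↔ F b = true) := by
              unfold Ok; rw [hpx]
            have h4 : Ok Out T F (flipAt (pick l₀ A) (ev i) x) ↔
                (Out x ∈ T ↔ F (fl b i) = true) := by
              unfold Ok
              rw [hc, pars_flipAt, hpx]
              rfl
            by_cases h5 : Ok Out T F x
            · have h6 : ¬ Ok Out T F (flipAt (pick l₀ A) (ev i) x) := by
                rw [h4]
                rw [h3] at h5
                intro h7
                apply hF
                rcases hb : F b with _ | _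
                · rcases hc' : F (fl b i) with _ | _
                  · rfl
                  · rw [hb] at h5
                    rw [hc'] at h7
                    simp at h5 h7
                    exact absurd h7 h5
                · rcases hc' : F (fl b i) with _ | _
                  · rw [hb] at h5
                    rw [hc'] at h7
                    simp at h5 h7
                    exact absurd h5 h7
                  · rfl
              rw [ind_true h5, ind_false h6]
            · rw [ind_false h5]
              have := ind_le_one (Ok Out T F (flipAt (pick l₀ A) (ev i) x))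
              linarith
          · rw [ind_true (p := Out (flipAt (pick l₀ A) (ev i) x) ≠ Out x) hc]
            have h1 := ind_le_one (Ok Out T F x)
            have h2 := ind_le_one (Ok Out T F (flipAt (pick l₀ A) (ev i) x))
            linarith
        refine (Finset.sum_le_sum hterm).trans ?_
        rw [Finset.sum_add_distrib]
        have h8 : ∑ i ∈ S, ind (Out (flipAt (pick l₀ A) (ev i) x) ≠ Out x) ≤
            ((univ.filter (fun i : Fin m =>
              Out (flipAt (pick l₀ A) (ev i) x) ≠ Out x)).card : ℝ) := by
          rw [Finset.card_filter]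
          push_cast
          unfold ind
          refine (Finset.sum_le_sum_of_subset_of_nonneg (Finset.subset_univ S) ?_).trans ?_
          · intro i _ _
            split_ifs <;> norm_num
          · refine Finset.sum_le_sum fun i _ => ?_
            split_ifs <;> norm_num
        simp only [Finset.sum_const, nsmul_eq_mul, mul_one, mul_zero, add_zero]
        linarith
      · rw [ind_true (p := Hit A ∧ ¬ GoodR Out s (mk A x)) ⟨hA, hG⟩]
        have := ind_nonneg (¬ Hit A)
        have h9 : (0 : ℝ) ≤ S.card * ind (¬ Hit A) := mul_nonneg hSn this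
        linarith
    · rw [ind_true (p := ¬ Hit A) hA]
      have := ind_nonneg (Hit A ∧ ¬ GoodR Out s (mk A x))
      have h9 : (0 : ℝ) ≤ S.card * ind (Hit A ∧ ¬ GoodR Out s (mk A x)) := mul_nonneg hSn this
      linarith
  -- the bad restrictions
  have hbad : ∀ A : Fin m × Fin k → Bool,
      ∑ x ∈ (EE b : Finset (Fin m × Fin k → Bool)), ind (Hit A ∧ ¬ GoodR Out s (mk A x)) ≤
      (1 / 2) ^ m * ∑ x, ind (¬ GoodR Out s (mk A x)) := by
    intro A
    by_cases hA : Hit A
    · have h2 := sum_univ_EE (pick l₀ A) b (fun x => ind (¬ GoodR Out s (mk A x))) (by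
        intro v x
        have : mk A (flipAt (pick l₀ A) v x) = mk A x := by
          funext il
          unfold mk
          by_cases hil : A il = true
          · simp [hil]
          · simp only [hil]
            congr 1
            unfold flipAt
            rw [if_neg]
            rintro ⟨h2, h3⟩
            apply hil
            have := pick_spec (l₀ := l₀) hA il.1
            rw [← h3] at this
            exact this
        simp only [this])
      rw [h2, ← mul_assoc, ← mul_pow]
      norm_num
      refine Finset.sum_le_sum fun x _ => ?_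
      by_cases hG : GoodR Out s (mk A x)
      · rw [ind_false (by tauto), ind_false (by tauto)]
      · rw [ind_true ⟨hA, hG⟩, ind_true hG]
    · have h3 : ∑ x ∈ (EE b : Finset (Fin m × Fin k → Bool)),
          ind (Hit A ∧ ¬ GoodR Out s (mk A x)) = 0 := by
        refine Finset.sum_eq_zero fun x _ => ?_
        rw [ind_false (by tauto)]
      rw [h3]
      exact mul_nonneg (by positivity) (Finset.sum_nonneg fun x _ => ind_nonneg _)
  -- the number of inputs
  have hcard : ((1 : ℝ) / 2) ^ m * 2 ^ (m * k) =
      ((EE b : Finset (Fin m × Fin k → Bool)).card : ℝ) := by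
    have h2 := sum_univ_EE (fun _ => l₀) b (fun _ => (1 : ℝ)) (by intro v x; rfl)
    simp only [Finset.sum_const, nsmul_eq_mul, mul_one] at h2
    have h3 : ((univ : Finset (Fin m × Fin k → Bool)).card : ℝ) = 2 ^ (m * k) := by
      rw [Finset.card_univ]
      simp
    rw [h3] at h2
    rw [h2, ← mul_assoc, ← mul_pow]
    norm_num
  -- assembling
  have hA : ∀ A : Fin m × Fin k → Bool, L ≤
      ((EE b : Finset (Fin m × Fin k → Bool)).card : ℝ) * (S.card + Q * s) +
      (((EE b : Finset (Fin m × Fin k → Bool)).card : ℝ) * S.card) * ind (¬ Hit A) +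
      (((EE b : Finset (Fin m × Fin k → Bool)).card : ℝ) * S.card) *
        ((1 / 2) ^ (m * k) * ∑ x, ind (¬ GoodR Out s (mk A x))) := by
    intro A
    rw [hLA A]
    refine (Finset.sum_le_sum (hpt A)).trans ?_
    rw [Finset.sum_add_distrib, Finset.sum_const, nsmul_eq_mul, ← Finset.mul_sum]
    have h4 : (S.card : ℝ) * ∑ x ∈ (EE b : Finset (Fin m × Fin k → Bool)),
        ind (Hit A ∧ ¬ GoodR Out s (mk A x)) ≤
        S.card * ((1 / 2) ^ m * ∑ x, ind (¬ GoodR Out s (mk A x))) :=
      mul_le_mul_of_nonneg_left (hbad A) (by positivity)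
    have h5 : (S.card : ℝ) * ((1 / 2) ^ m * ∑ x, ind (¬ GoodR Out s (mk A x))) =
        (((EE b : Finset (Fin m × Fin k → Bool)).card : ℝ) * S.card) *
        ((1 / 2) ^ (m * k) * ∑ x, ind (¬ GoodR Out s (mk A x))) := by
      rw [← hcard]
      have h6 : ((1 : ℝ) / 2) ^ (m * k) * 2 ^ (m * k) = 1 := by
        rw [← mul_pow]; norm_num
      calc (S.card : ℝ) * ((1 / 2) ^ m * ∑ x, ind (¬ GoodR Out s (mk A x))) =
          ((1 : ℝ) / 2) ^ (m * k) * 2 ^ (m * k) *
          (S.card * ((1 / 2) ^ m * ∑ x, ind (¬ GoodR Out s (mk A x)))) := by rw [h6, one_mul]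
        _ = _ := by ring
    rw [h5] at h4
    linarith
  have hfin : L = Ex (bw p) (fun _ : Fin m × Fin k → Bool => L) := by
    rw [Ex_const (bw_sum p)]
  rw [hfin]
  refine (Ex_mono (bw_nonneg h0 h1) hA).trans ?_
  rw [Ex_add, Ex_add, Ex_const (bw_sum p), Ex_smul, Ex_smul,
    Ex_wq p (fun ρ : Restr (Fin m × Fin k) => ind (¬ GoodR Out s ρ))]
  apply le_of_eq
  ring

end Blocks

end Pool.Agent.W2helper86.OD
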