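import Pool.Agent.TH163.AC3.Col

/-!
# Collapse of circuits fed with shallow decision trees
-/

set_option autoImplicit false

namespace Pool.Agent.W2helper86.OD

open Finset DomAC0 H568R2 Pool.Agent.TH163 Pool.Agent.TH163.AC3

variable {I J : Type} [Fintype I] [DecidableEq I]

/-- decision trees -/
abbrev DTree (I : Type) := Pool.Agent.TH163.AC3.Tree I

/-- the restriction of a decision tree -/
def rtree (τ : Restr I) : DTree I → DTree I
  | AC3.Tree.leaf b => AC3.Tree.leaf b
  | AC3.Tree.node i a b =>
    match τ i with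
    | none => AC3.Tree.node i (rtree τ a) (rtree τ b)
    | some true => rtree τ b
    | some false => rtree τ a

omit [Fintype I] in
lemma rtree_depth (τ : Restr I) (t : DTree I) : (rtree τ t).depth ≤ t.depth := by
  induction t with
  | leaf b => exact le_refl _
  | node i a b iha ihb =>
    unfold rtree
    cases hτ : τ i with
    | none =>
      simp only [AC3.Tree.depth]
      omega
    | some c =>
      cases c
      · simp only [AC3.Tree.depth]
        omega
      · simp only [AC3.Tree.depth]
        omega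

omit [Fintype I] in
lemma rtree_eval (τ : Restr I) (t : DTree I) (x : I → Bool) :
    (rtree τ t).eval x = t.eval (ov τ x) := by
  induction t with
  | leaf b => rfl
  | node i a b iha ihb =>
    unfold rtree
    cases hτ : τ i with
    | none =>
      simp only [AC3.Tree.eval, ov, hτ, Option.getD_none, iha, ihb]
    | some c =>
      cases c
      · simp [AC3.Tree.eval, ov, hτ, iha]
      · simp [AC3.Tree.eval, ov, hτ, ihb]

omit [Fintype I] in
lemma hasDT_rs {s : ℕ} {f : (I → Bool) → Bool} (h : HasDT s f) (τ : Restr I) :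
    HasDT s (rs f τ) := by
  obtain ⟨t, ht, he⟩ := h
  refine ⟨rtree τ t, (rtree_depth τ t).trans ht, ?_⟩
  intro x
  rw [rtree_eval, he]
  rfl

/-- all nodes of depth at most `j` have shallow decision trees in the variables `I` after the
substitution `σ` and the restriction `ρ` -/
def ShN (C : Circuit J) (σ : (I → Bool) → (J → Bool)) (s j : ℕ) (ρ : Restr I) : Prop :=
  ∀ v : J ⊕ Fin C.size, C.nodeDepth v ≤ j → HasDT s (rs (fun x => C.nodeVal (σ x) v) ρ)

omit [Fintype I] in
lemma gate_certS (C : Circuit J) (σ : (I → Bool) → (J → Bool)) {K : ℕ} {ρ : Restr I}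
    (g : Fin C.size) (Q : List (J ⊕ Fin C.size))
    (hQ : ∀ v ∈ Q, HasDT K (rs (fun x => C.nodeVal (σ x) v) ρ)) :
    ∃ b, Cert K b (rs (fun x => gfun C g (σ x) Q) ρ) := by
  cases hg : C.kind g with
  | and =>
    refine ⟨false, ?_⟩
    intro x hx
    simp only [rs, gfun, hg, decide_eq_false_iff_not, not_forall] at hx
    obtain ⟨v, hvQ, hv⟩ := hx
    have hv' : rs (fun x => C.nodeVal (σ x) v) ρ x = false := by
      show C.nodeVal (σ (ov ρ x)) v = false
      simpa using hv
    obtain ⟨A, hA, hy⟩ := (hQ v hvQ).cert false x hv'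
    refine ⟨A, hA, fun y hxy => ?_⟩
    simp only [rs, gfun, hg, decide_eq_false_iff_not, not_forall]
    exact ⟨v, hvQ, by have := hy y hxy; simpa [rs] using this⟩
  | or =>
    refine ⟨true, ?_⟩
    intro x hx
    simp only [rs, gfun, hg, decide_eq_true_eq] at hx
    obtain ⟨v, hvQ, hv⟩ := hx
    obtain ⟨A, hA, hy⟩ := (hQ v hvQ).cert true x hv
    refine ⟨A, hA, fun y hxy => ?_⟩
    simp only [rs, gfun, hg, decide_eq_true_eq]
    exact ⟨v, hvQ, hy y hxy⟩
  | not =>
    refine ⟨false, ?_⟩
    intro x hx
    simp only [rs, gfun, hg, decide_eq_false_iff_not, not_forall] at hx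
    obtain ⟨v, hvQ, hv⟩ := hx
    have hv' : rs (fun x => C.nodeVal (σ x) v) ρ x = true := by
      show C.nodeVal (σ (ov ρ x)) v = true
      simpa using hv
    obtain ⟨A, hA, hy⟩ := (hQ v hvQ).cert true x hv'
    refine ⟨A, hA, fun y hxy => ?_⟩
    simp only [rs, gfun, hg, decide_eq_false_iff_not, not_forall]
    exact ⟨v, hvQ, by have := hy y hxy; simpa [rs] using this⟩

open Classical in
/-- the collapse of one level -/
theorem collapse_step (C : Circuit J) (σ : (I → Bool) → (J → Bool)) {q : ℝ} (h0 : 0 ≤ q)
    (h1 : q ≤ 1 / 3) {s : ℕ} (j : ℕ) {r : ℝ} (hr0 : 0 ≤ r) (hr1 : r ≤ 1) :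
    Ex (wq (r * q)) (fun ρ : Restr I => if ¬ ShN C σ s (j + 1) ρ then (1 : ℝ) else 0) ≤
      Ex (wq r) (fun ρ : Restr I => if ¬ ShN C σ s j ρ then (1 : ℝ) else 0) +
        C.size * (12 * s * q) ^ (s + 1) := by
  rw [wq_cmp]
  set ε : ℝ := (12 * s * q) ^ (s + 1) with hε
  have hε0 : 0 ≤ ε := by positivity
  have hwj : ∀ a, 0 ≤ wq r a := wq_nonneg hr0 hr1
  have hw1 : ∀ a, 0 ≤ wq q a := wq_nonneg h0 (by linarith)
  have hin : ∀ ρ : Restr I, Ex (wq q) (fun τ : Restr I =>
      if ¬ ShN C σ s (j + 1) (cmp ρ τ) then (1 : ℝ) else 0) ≤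
      (if ¬ ShN C σ s j ρ then (1 : ℝ) else 0) + C.size * ε := by
    intro ρ
    by_cases hG : ShN C σ s j ρ
    · simp only [hG, not_true, if_false, zero_add]
      have hpt : ∀ τ : Restr I, (if ¬ ShN C σ s (j + 1) (cmp ρ τ) then (1 : ℝ) else 0) ≤
          ∑ g ∈ univ.filter (fun g : Fin C.size => C.gateDepth g ≤ j + 1),
            (if ¬ HasDT s (rs (rs (fun x => C.gateVal (σ x) g) ρ) τ) then (1 : ℝ) else 0) := by
        intro τ
        have hnn : ∀ g ∈ univ.filter (fun g : Fin C.size => C.gateDepth g ≤ j + 1),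
            (0 : ℝ) ≤ (if ¬ HasDT s (rs (rs (fun x => C.gateVal (σ x) g) ρ) τ)
              then (1 : ℝ) else 0) := by
          intro g _
          split_ifs <;> norm_num
        by_cases hGG : ShN C σ s (j + 1) (cmp ρ τ)
        · simp only [hGG, not_true, if_false]
          exact Finset.sum_nonneg hnn
        · simp only [hGG, not_false_iff, if_true]
          have hex : ∃ v : J ⊕ Fin C.size, C.nodeDepth v ≤ j + 1 ∧
              ¬ HasDT s (rs (fun x => C.nodeVal (σ x) v) (cmp ρ τ)) := by
            by_contra hcon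
            apply hGG
            intro v hv
            by_contra hJ
            exact hcon ⟨v, hv, hJ⟩
          obtain ⟨v, hv, hJ⟩ := hex
          cases v with
          | inl i =>
            exfalso
            apply hJ
            rw [rs_cmp]
            apply hasDT_rs
            exact hG (Sum.inl i) (Nat.zero_le _)
          | inr g =>
            rw [rs_cmp] at hJ
            refine le_trans ?_ (Finset.single_le_sum hnn
              (Finset.mem_filter.2 ⟨Finset.mem_univ g, hv⟩))
            have hJ' : ¬ HasDT s (rs (rs (fun x => C.gateVal (σ x) g) ρ) τ) := hJ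
            rw [if_pos hJ']
      refine (Ex_mono hw1 hpt).trans ?_
      rw [Ex_sum]
      have hterm : ∀ g ∈ univ.filter (fun g : Fin C.size => C.gateDepth g ≤ j + 1),
          Ex (wq q) (fun τ : Restr I => (if ¬ HasDT s
              (rs (rs (fun x => C.gateVal (σ x) g) ρ) τ) then (1 : ℝ) else 0)) ≤ ε := by
        intro g hgi
        have hgd : C.gateDepth g ≤ j + 1 := (Finset.mem_filter.1 hgi).2
        obtain ⟨b, hb⟩ := gate_certS C σ (K := s) (ρ := ρ) g (C.preds g).toList (by
          intro v hv
          apply hG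
          have hvp : v ∈ C.preds g := by
            rwa [Finset.mem_toList] at hv
          have := depth_lt C g v hvp
          omega)
        have h2 : (fun x => C.gateVal (σ x) g) = fun x => gfun C g (σ x) (C.preds g).toList := by
          funext x
          exact gateVal_eq C (σ x) g
        rw [← h2] at hb
        exact switching' h0 h1 hb
      refine (Finset.sum_le_card_nsmul _ _ _ hterm).trans ?_
      rw [nsmul_eq_mul]
      apply mul_le_mul_of_nonneg_right _ hε0
      have : (univ.filter (fun g : Fin C.size => C.gateDepth g ≤ j + 1)).card ≤ C.size := by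
        refine (Finset.card_le_univ _).trans ?_
        simp
      exact_mod_cast this
    · simp only [hG, not_false_iff, if_true]
      have h2 : Ex (wq q) (fun τ : Restr I =>
          if ¬ ShN C σ s (j + 1) (cmp ρ τ) then (1 : ℝ) else 0) ≤
          Ex (wq q) (fun _ : Restr I => (1 : ℝ)) := by
        apply Ex_mono hw1
        intro τ
        split_ifs <;> norm_num
      rw [Ex_const (wq_sum q)] at h2
      have : 0 ≤ C.size * ε := by positivity
      linarith
  refine (Ex_mono hwj hin).trans ?_
  rw [Ex_add, Ex_const (wq_sum r)]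

open Classical in
/-- the collapse of a circuit of constant depth -/
theorem collapseG (C : Circuit J) (σ : (I → Bool) → (J → Bool)) {q : ℝ} (h0 : 0 ≤ q)
    (h1 : q ≤ 1 / 3) {s : ℕ} (e : ℕ) : ∀ j : ℕ,
    Ex (wq (q ^ (e + j))) (fun ρ : Restr I => if ¬ ShN C σ s j ρ then (1 : ℝ) else 0) ≤
      Ex (wq (q ^ e)) (fun ρ : Restr I => if ¬ ShN C σ s 0 ρ then (1 : ℝ) else 0) +
        j * C.size * (12 * s * q) ^ (s + 1) := by
  intro j
  induction j with
  | zero => simp
  | succ j ih =>
    have h := collapse_step C σ h0 h1 (s := s) j (r := q ^ (e + j)) (pow_nonneg h0 _)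
      (pow_le_one₀ h0 (by linarith))
    rw [← pow_succ] at h
    push_cast at ih ⊢
    rw [← add_assoc e j 1]
    linarith

end Pool.Agent.W2helper86.OD
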