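import Pool.Agent.W2helper86.OD.SatRed

/-!
# The final statements
-/

set_option autoImplicit false

namespace Pool.Agent.W2helper86.OD

open Finset DomAC0 Filter

/-- parity reduces to `R` by projections followed by circuits of depth `e` -/
def PP (R : Set (List Bool)) (e c k₁ : ℕ) (len : ℕ → ℕ) : Prop :=
  ∀ k, k₁ ≤ k → len k ≤ k ^ c + c ∧
    ∃ (ν : ℕ) (π : (Fin k → Bool) → (Fin ν → Bool)) (G : Circuit (Fin ν))
      (o : Fin (len k) → Fin ν ⊕ Fin G.size), IsProj π ∧ (∀ l, G.nodeDepth (o l) ≤ e) ∧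
      G.size ≤ k ^ c + c ∧
      (∀ y : Fin k → Bool, List.ofFn (fun l => G.nodeVal (π y) (o l)) ∈ R ↔ par y = true)

lemma PP_of_parity {R : Set (List Bool)} (h : AC0Reduces parityLang R) :
    ∃ (c : ℕ) (len : ℕ → ℕ), PP R c c 0 len := by
  obtain ⟨c, hc⟩ := h
  choose len C out h1 h2 h3 h4 using hc
  refine ⟨c, len, fun k _ => ⟨h1 k, k, id, C k, out k, ?_, h3 k, h2 k, ?_⟩⟩
  · intro j
    right; left
    exact ⟨j, fun x => rfl⟩
  · intro y
    rw [← par_iff, h4 k y]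
    rfl

lemma PP_of_sat {R : Set (List Bool)} (h : AC0Reduces cnfSat R) :
    ∃ (e c : ℕ) (len : ℕ → ℕ), PP R e c 2 len := by
  obtain ⟨c, hc⟩ := h
  choose len C out h1 h2 h3 h4 using hc
  refine ⟨c, 7 * c, fun k => len (2 * NN k ^ 2), fun k hk => ?_⟩
  have hb : 2 * NN k ^ 2 ≤ k ^ 7 := by
    have h5 : NN k ≤ 3 * k := by
      show 2 * k + 2 ≤ 3 * k
      omega
    calc 2 * NN k ^ 2 ≤ 2 * (3 * k) ^ 2 := by
          apply Nat.mul_le_mul_left
          exact Nat.pow_le_pow_left h5 2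
      _ = 18 * k ^ 2 := by ring
      _ ≤ 2 ^ 5 * k ^ 2 := by apply Nat.mul_le_mul_right; norm_num
      _ ≤ k ^ 5 * k ^ 2 := by
          apply Nat.mul_le_mul_right
          exact Nat.pow_le_pow_left hk 5
      _ = k ^ 7 := by ring
  have hb2 : (2 * NN k ^ 2) ^ c + c ≤ k ^ (7 * c) + 7 * c := by
    have h6 : (2 * NN k ^ 2) ^ c ≤ (k ^ 7) ^ c := Nat.pow_le_pow_left hb c
    rw [← pow_mul] at h6
    omega
  refine ⟨(h1 _).trans hb2, 2 * NN k ^ 2, satInst, C _, out _, satInst_proj, h3 _,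
    (h2 _).trans hb2, ?_⟩
  intro y
  rw [← satInst_spec, h4]

/-- the quantitative statement -/
def Quant (R : Set (List Bool)) : Prop :=
  ∃ (c : ℕ) (len : ℕ → ℕ), (∀ᶠ k in atTop, len k ≤ k ^ c + c) ∧
    ∀ (d : ℕ) (ε η : ℝ), 0 < ε → 0 < η → ∃ δ : ℝ, 0 < δ ∧ ∀ᶠ k : ℕ in atTop,
      ∀ (m Q : ℕ) (F : (Fin m → Bool) → Bool) (b : Fin m → Bool) (S : Finset (Fin m)),
        (m : ℝ) ≤ 2 ^ ((k : ℝ) ^ δ) → S.Nonempty → (Q : ℝ) * (k : ℝ) ^ ε ≤ S.card →
        SensitiveAt F b S →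
      ∀ K : Compressor m (len k) Q, K.DepthLE d → K.SizeLE (2 ^ ((k : ℝ) ^ δ)) →
        ∃ x : Fin m → Fin (len k) → Bool, K.success R F x < 1 / 2 + η

lemma quant_of_PP {R : Set (List Bool)} {e c k₁ : ℕ} {len : ℕ → ℕ} (h : PP R e c k₁ len) :
    Quant R := by
  refine ⟨c, len, ?_, ?_⟩
  · filter_upwards [eventually_ge_atTop k₁] with k hk
    exact (h k hk).1
  · intro d ε η hε hη
    obtain ⟨δ, hδ, k₀, hk₀⟩ := core e c d ε η hε hη
    refine ⟨δ, hδ, ?_⟩
    filter_upwards [eventually_ge_atTop k₁, eventually_ge_atTop k₀] with k hk hk'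
    obtain ⟨_, ν, π, G, o, hπ, ho, hG, hs⟩ := h k hk
    exact hk₀ k hk' R (len k) ν π G o hπ ho hG hs

lemma eventually_pow_le (E : ℕ) {δ : ℝ} (hδ : 0 < δ) :
    ∀ᶠ k : ℕ in atTop, (k : ℝ) ^ E ≤ 2 ^ ((k : ℝ) ^ δ) := by
  have h := (tendsto_pow_mul_exp δ (Real.log 2) hδ (Real.log_pos (by norm_num)) E).eventually
    (gt_mem_nhds (one_pos))
  filter_upwards [tendsto_natCast_atTop_atTop.eventually h] with k hk
  rw [Real.rpow_def_of_pos (by norm_num)]
  rw [show -Real.log 2 * (k : ℝ) ^ δ = -(Real.log 2 * (k : ℝ) ^ δ) by ring, Real.exp_neg,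
    mul_inv_lt_iff₀ (Real.exp_pos _)] at hk
  linarith

theorem not_distillable {R : Set (List Bool)} (hR : Quant R)
    (F : (m : ℕ) → (Fin m → Bool) → Bool) (γ : ℝ) (hγ : 0 < γ) (hF : PolySensitive F γ) :
    ¬ AC0Distillable R F := by
  rintro ⟨a, η, hη, hD⟩
  obtain ⟨c, len, hlen, hq⟩ := hR
  obtain ⟨δ, hδ, hk⟩ := hq a 1 η one_pos hη
  set A : ℕ := (c + 2) * a + 3 with hA
  set B : ℕ := ⌈(A : ℝ) / γ⌉₊ with hB
  have hBA : (A : ℝ) ≤ B * γ := by
    have := Nat.le_ceil ((A : ℝ) / γ)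
    rw [div_le_iff₀ hγ] at this
    exact this
  obtain ⟨k, ⟨⟨h1, h2⟩, ⟨h3, h4⟩⟩, h5⟩ := (((hlen.and hk).and
    ((eventually_pow_le ((B + c + 3) * a + 2) hδ).and (eventually_ge_atTop (max 2 (max c a))))).and
    (eventually_pow_le B hδ)).exists
  have hk2 : 2 ≤ k := (le_max_left _ _).trans h4
  have hkc : c ≤ k := (le_max_left _ _).trans ((le_max_right _ _).trans h4)
  have hka : a ≤ k := (le_max_right _ _).trans ((le_max_right _ _).trans h4)
  have hk1 : 1 ≤ k := by omega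
  set n : ℕ := len k with hn
  have hkp : ∀ i j : ℕ, i ≤ j → k ^ i ≤ k ^ j := fun i j hij => Nat.pow_le_pow_right hk1 hij
  have hn2 : n ≤ k ^ (c + 2) := by
    have e1 : k ^ c ≤ k ^ (c + 1) := hkp _ _ (by omega)
    have e2 : c ≤ k ^ (c + 1) := hkc.trans (by simpa using hkp 1 (c + 1) (by omega))
    have e3 : k ^ (c + 2) = k * k ^ (c + 1) := by ring
    have e4 : 2 * k ^ (c + 1) ≤ k * k ^ (c + 1) := Nat.mul_le_mul_right _ hk2
    omega
  have hna : n ^ a + a ≤ k ^ ((c + 2) * a + 2) := by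
    have e1 : n ^ a ≤ k ^ ((c + 2) * a) := by
      rw [pow_mul]
      exact Nat.pow_le_pow_left hn2 a
    have e2 : k ^ ((c + 2) * a) ≤ k ^ ((c + 2) * a + 1) := hkp _ _ (by omega)
    have e3 : a ≤ k ^ ((c + 2) * a + 1) := hka.trans (by simpa using hkp 1 _ (by omega))
    have e4 : k ^ ((c + 2) * a + 2) = k * k ^ ((c + 2) * a + 1) := by ring
    have e5 : 2 * k ^ ((c + 2) * a + 1) ≤ k * k ^ ((c + 2) * a + 1) :=
      Nat.mul_le_mul_right _ hk2
    omega
  set m : ℕ := k ^ B with hm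
  have hm1 : 1 ≤ m := Nat.one_le_pow _ _ hk1
  have hmn : (m + n) ^ a + a ≤ k ^ ((B + c + 3) * a + 2) := by
    have e0 : m + n ≤ k ^ (B + c + 3) := by
      have f1 : m ≤ k ^ (B + c + 2) := hkp _ _ (by omega)
      have f2 : n ≤ k ^ (B + c + 2) := hn2.trans (hkp _ _ (by omega))
      have f3 : k ^ (B + c + 3) = k * k ^ (B + c + 2) := by ring
      have f4 : 2 * k ^ (B + c + 2) ≤ k * k ^ (B + c + 2) := Nat.mul_le_mul_right _ hk2
      omega
    have e1 : (m + n) ^ a ≤ k ^ ((B + c + 3) * a) := by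
      rw [pow_mul]
      exact Nat.pow_le_pow_left e0 a
    have e2 : k ^ ((B + c + 3) * a) ≤ k ^ ((B + c + 3) * a + 1) := hkp _ _ (by omega)
    have e3 : a ≤ k ^ ((B + c + 3) * a + 1) := hka.trans (by simpa using hkp 1 _ (by omega))
    have e4 : k ^ ((B + c + 3) * a + 2) = k * k ^ ((B + c + 3) * a + 1) := by ring
    have e5 : 2 * k ^ ((B + c + 3) * a + 1) ≤ k * k ^ ((B + c + 3) * a + 1) :=
      Nat.mul_le_mul_right _ hk2
    omega
  obtain ⟨Q, K, hQ, hKd, hKs, hKx⟩ := hD m n hm1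
  obtain ⟨b, S, hS, hsens⟩ := hF m hm1
  have hkR : (1 : ℝ) ≤ k := by exact_mod_cast hk1
  -- the sensitivity
  have hQS : (Q : ℝ) * (k : ℝ) ^ (1 : ℝ) ≤ S.card := by
    refine le_trans ?_ hS
    rw [Real.rpow_one]
    have e1 : (m : ℝ) ^ γ = (k : ℝ) ^ ((B : ℝ) * γ) := by
      rw [hm]
      push_cast
      rw [Real.rpow_mul (by linarith), Real.rpow_natCast]
    rw [e1]
    have e2 : (k : ℝ) ^ (A : ℝ) ≤ (k : ℝ) ^ ((B : ℝ) * γ) :=
      Real.rpow_le_rpow_of_exponent_le hkR hBA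
    refine le_trans ?_ e2
    rw [Real.rpow_natCast]
    have e3 : Q * k ≤ k ^ A := by
      calc Q * k ≤ k ^ ((c + 2) * a + 2) * k := Nat.mul_le_mul_right _ (hQ.trans hna)
        _ = k ^ A := by rw [hA]; ring
    exact_mod_cast e3
  have hSne : S.Nonempty := by
    rw [← Finset.card_pos]
    have : (0 : ℝ) < (m : ℝ) ^ γ := by
      have : (0 : ℝ) < m := by exact_mod_cast hm1
      positivity
    have h6 : (0 : ℝ) < S.card := lt_of_lt_of_le this hS
    exact_mod_cast h6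
  have hmδ : (m : ℝ) ≤ 2 ^ ((k : ℝ) ^ δ) := by
    refine le_trans ?_ h5
    rw [hm]
    push_cast
    exact le_rfl
  have hKs' : K.SizeLE (2 ^ ((k : ℝ) ^ δ)) := by
    intro r
    refine (hKs r).trans (le_trans ?_ h3)
    exact_mod_cast hmn
  obtain ⟨x, hx⟩ := h2 m Q (F m) b S hmδ hSne hQS hsens K hKd hKs'
  have := hKx x
  linarith

lemma orFn_sens : PolySensitive orFn 1 := by
  intro m _
  refine ⟨fun _ => false, univ, by simp, ?_⟩
  intro i _
  unfold orFn
  have h1 : decide (∃ j : Fin m, (fun _ : Fin m => false) j = true) = false := by simp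
  have h2 : decide (∃ j : Fin m,
      Function.update (fun _ : Fin m => false) i (!(fun _ : Fin m => false) i) j = true) = true := by
    rw [decide_eq_true_eq]
    exact ⟨i, by simp⟩
  rw [h1, h2]
  simp

lemma andFn_sens : PolySensitive andFn 1 := by
  intro m _
  refine ⟨fun _ => true, univ, by simp, ?_⟩
  intro i _
  unfold andFn
  have h1 : decide (∀ j : Fin m, (fun _ : Fin m => true) j = true) = true := by simp
  have h2 : decide (∀ j : Fin m,
      Function.update (fun _ : Fin m => true) i (!(fun _ : Fin m => true) i) j = true) = false := by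
    rw [decide_eq_false_iff_not]
    intro h
    have := h i
    simp at this
  rw [h1, h2]
  simp

/-- a circuit with one gate -/
def oneCircuit (k : ℕ) : Circuit (Fin k) where
  size := 1
  kind := fun _ => GateKind.and
  preds := fun _ => ∅
  acyclic := fun g h hh => absurd hh (Finset.notMem_empty _)
  unary := fun g hg => by cases hg
  output := Sum.inr 0

lemma AC0Reduces_refl (A : Set (List Bool)) : AC0Reduces A A := by
  refine ⟨1, fun k => ⟨k, oneCircuit k, fun l => Sum.inl l, by simp, ?_, ?_, ?_⟩⟩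
  · show 1 ≤ k ^ 1 + 1
    omega
  · intro l
    show 0 ≤ 1
    omega
  · intro w
    exact Iff.rfl

end Pool.Agent.W2helper86.OD
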