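import Pool.Agent.W2helper86.OD.Avg

/-!
# Random restrictions applied to a compressor composed with a reduction from parity
-/

set_option autoImplicit false

namespace Pool.Agent.W2helper86.OD

open Finset DomAC0 H568R2 Pool.Agent.TH163 Pool.Agent.TH163.AC3

/-- every coordinate of `π` is a constant, a variable, or a negated variable -/
def IsProj {k ν : ℕ} (π : (Fin k → Bool) → (Fin ν → Bool)) : Prop :=
  ∀ j, (∃ c, ∀ x, π x j = c) ∨ (∃ a, ∀ x, π x j = x a) ∨ (∃ a, ∀ x, π x j = !x a)

section Lit
variable {I : Type} [DecidableEq I]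

lemma hasDT_lit (ρ : Restr I) (i : I) {s : ℕ} (hs : 1 ≤ s) :
    HasDT s (rs (fun x : I → Bool => x i) ρ) := by
  apply hasDT_rs
  refine ⟨AC3.Tree.node i (AC3.Tree.leaf false) (AC3.Tree.leaf true), ?_, ?_⟩
  · simp only [AC3.Tree.depth]
    omega
  · intro x
    rcases hx : x i with _ | _
    · simp [AC3.Tree.eval, hx]
    · simp [AC3.Tree.eval, hx]

lemma hasDT_nlit (ρ : Restr I) (i : I) {s : ℕ} (hs : 1 ≤ s) :
    HasDT s (rs (fun x : I → Bool => !x i) ρ) := by
  apply hasDT_rs
  refine ⟨AC3.Tree.node i (AC3.Tree.leaf true) (AC3.Tree.leaf false), ?_, ?_⟩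
  · simp only [AC3.Tree.depth]
    omega
  · intro x
    rcases hx : x i with _ | _
    · simp [AC3.Tree.eval, hx]
    · simp [AC3.Tree.eval, hx]

end Lit

section Main
variable {m k n Q ν : ℕ}

/-- the instances produced from the blocks by the reduction -/
noncomputable def inst (π : (Fin k → Bool) → (Fin ν → Bool)) (G : Circuit (Fin ν))
    (o : Fin n → Fin ν ⊕ Fin G.size) (x : Fin m × Fin k → Bool) (i : Fin m) : Fin n → Bool :=
  fun l => G.nodeVal (π (fun a => x (i, a))) (o l)

lemma shN_zero_of {C : Circuit (Fin m × Fin n)}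
    {π : (Fin k → Bool) → (Fin ν → Bool)} {G : Circuit (Fin ν)}
    {o : Fin n → Fin ν ⊕ Fin G.size} {e s : ℕ} (ho : ∀ l, G.nodeDepth (o l) ≤ e)
    {ρ : Restr (Fin m × Fin k)}
    (h : ∀ i : Fin m, ShN G (fun x : Fin m × Fin k → Bool => π (fun a => x (i, a))) s e ρ) :
    ShN C (fun (x : Fin m × Fin k → Bool) (il : Fin m × Fin n) => inst π G o x il.1 il.2)
      s 0 ρ := by
  intro v hv
  cases v with
  | inl il =>
    exact h il.1 (o il.2) (ho il.2)
  | inr g =>
    exfalso
    have : 0 < C.gateDepth g := by rw [Circuit.gateDepth]; omega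
    have h2 : C.gateDepth g ≤ 0 := hv
    omega

lemma shN_proj (G : Circuit (Fin ν)) {π : (Fin k → Bool) → (Fin ν → Bool)} (hπ : IsProj π)
    (i : Fin m) {s : ℕ} (hs : 1 ≤ s) (ρ : Restr (Fin m × Fin k)) :
    ShN G (fun x : Fin m × Fin k → Bool => π (fun a => x (i, a))) s 0 ρ := by
  intro v hv
  cases v with
  | inl j =>
    rcases hπ j with ⟨c, hc⟩ | ⟨a, ha⟩ | ⟨a, ha⟩
    · apply hasDT_const c
      intro x
      exact hc _
    · have h1 : (fun x : Fin m × Fin k → Bool =>
          G.nodeVal (π (fun a => x (i, a))) (Sum.inl j)) = fun x => x (i, a) := by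
        funext x
        exact ha _
      rw [h1]
      exact hasDT_lit ρ _ hs
    · have h1 : (fun x : Fin m × Fin k → Bool =>
          G.nodeVal (π (fun a => x (i, a))) (Sum.inl j)) = fun x => !x (i, a) := by
        funext x
        exact ha _
      rw [h1]
      exact hasDT_nlit ρ _ hs
  | inr g =>
    exfalso
    have : 0 < G.gateDepth g := by rw [Circuit.gateDepth]; omega
    have h2 : G.gateDepth g ≤ 0 := hv
    omega

/-- the probability that a random restriction fails to simplify the compressor -/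
theorem bad_bound (C : Circuit (Fin m × Fin n)) (out : Fin Q → (Fin m × Fin n) ⊕ Fin C.size)
    {d : ℕ} (hd : ∀ t, C.nodeDepth (out t) ≤ d)
    {π : (Fin k → Bool) → (Fin ν → Bool)} (hπ : IsProj π) (G : Circuit (Fin ν))
    (o : Fin n → Fin ν ⊕ Fin G.size) {e : ℕ} (ho : ∀ l, G.nodeDepth (o l) ≤ e)
    {q : ℝ} (h0 : 0 ≤ q) (h1 : q ≤ 1 / 3) {s : ℕ} (hs : 1 ≤ s) :
    Ex (wq (q ^ (e + d))) (fun ρ : Restr (Fin m × Fin k) =>
      ind (¬ GoodR (fun x t => C.nodeVal (fun il => inst π G o x il.1 il.2) (out t)) s ρ)) ≤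
      (m * e * G.size + d * C.size) * (12 * s * q) ^ (s + 1) := by
  classical
  have hwp : ∀ r : ℕ, ∀ a, 0 ≤ wq (q ^ r) a := fun r =>
    wq_nonneg (pow_nonneg h0 _) (pow_le_one₀ h0 (by linarith))
  set ε : ℝ := (12 * s * q) ^ (s + 1) with hε
  -- the reduction circuits
  have hG : ∀ i : Fin m, Ex (wq (q ^ e)) (fun ρ : Restr (Fin m × Fin k) =>
      ind (¬ ShN G (fun x : Fin m × Fin k → Bool => π (fun a => x (i, a))) s e ρ)) ≤
      e * G.size * ε := by
    intro i
    have h := collapseG G (fun x : Fin m × Fin k → Bool => π (fun a => x (i, a))) h0 h1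
      (s := s) 0 e
    rw [zero_add] at h
    have hz : ∀ ρ : Restr (Fin m × Fin k),
        (if ¬ ShN G (fun x : Fin m × Fin k → Bool => π (fun a => x (i, a))) s 0 ρ then
          (1 : ℝ) else 0) = 0 := by
      intro ρ
      rw [if_neg]
      simpa using shN_proj G hπ i hs ρ
    simp only [hz] at h
    rw [Ex_const (wq_sum _), zero_add] at h
    refine le_trans (le_of_eq ?_) h
    congr 1
    funext ρ
    exact ind_eq _
  have hbase : Ex (wq (q ^ e)) (fun ρ : Restr (Fin m × Fin k) =>
      ind (¬ ShN C (fun (x : Fin m × Fin k → Bool) (il : Fin m × Fin n) =>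
        inst π G o x il.1 il.2) s 0 ρ)) ≤ m * e * G.size * ε := by
    have hpt : ∀ ρ : Restr (Fin m × Fin k),
        ind (¬ ShN C (fun (x : Fin m × Fin k → Bool) (il : Fin m × Fin n) =>
        inst π G o x il.1 il.2) s 0 ρ) ≤ ∑ i : Fin m,
        ind (¬ ShN G (fun x : Fin m × Fin k → Bool => π (fun a => x (i, a))) s e ρ) := by
      intro ρ
      by_cases hall : ∀ i : Fin m,
          ShN G (fun x : Fin m × Fin k → Bool => π (fun a => x (i, a))) s e ρ
      · rw [ind_false]
        · exact Finset.sum_nonneg fun i _ => ind_nonneg _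
        · rw [not_not]
          exact shN_zero_of ho hall
      · obtain ⟨i, hi⟩ := not_forall.1 hall
        refine (ind_le_one _).trans ?_
        rw [← ind_true hi]
        exact Finset.single_le_sum (f := fun i : Fin m =>
          ind (¬ ShN G (fun x : Fin m × Fin k → Bool => π (fun a => x (i, a))) s e ρ))
          (fun i _ => ind_nonneg _) (Finset.mem_univ i)
    refine (Ex_mono (hwp e) hpt).trans ?_
    rw [Ex_sum]
    refine (Finset.sum_le_card_nsmul _ _ _ fun i _ => hG i).trans ?_
    rw [nsmul_eq_mul, Finset.card_univ, Fintype.card_fin]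
    apply le_of_eq
    ring
  have hcol := collapseG C (fun (x : Fin m × Fin k → Bool) (il : Fin m × Fin n) =>
        inst π G o x il.1 il.2) h0 h1 (s := s) e d
  have hfin : Ex (wq (q ^ (e + d))) (fun ρ : Restr (Fin m × Fin k) =>
      ind (¬ GoodR (fun x t => C.nodeVal (fun il => inst π G o x il.1 il.2) (out t)) s ρ)) ≤
      Ex (wq (q ^ (e + d))) (fun ρ : Restr (Fin m × Fin k) =>
        if ¬ ShN C (fun (x : Fin m × Fin k → Bool) (il : Fin m × Fin n) =>
        inst π G o x il.1 il.2) s d ρ then (1 : ℝ) else 0) := by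
    apply Ex_mono (hwp _)
    intro ρ
    by_cases hS : ShN C (fun (x : Fin m × Fin k → Bool) (il : Fin m × Fin n) =>
        inst π G o x il.1 il.2) s d ρ
    · rw [ind_false]
      · split_ifs <;> norm_num
      · rw [not_not]
        intro t
        exact hS (out t) (hd t)
    · rw [if_pos hS]
      exact ind_le_one _
  refine hfin.trans (hcol.trans ?_)
  have h3 : Ex (wq (q ^ e)) (fun ρ : Restr (Fin m × Fin k) =>
      if ¬ ShN C (fun (x : Fin m × Fin k → Bool) (il : Fin m × Fin n) =>
        inst π G o x il.1 il.2) s 0 ρ then (1 : ℝ) else 0) ≤ m * e * G.size * ε := by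
    refine le_trans (le_of_eq ?_) hbase
    congr 1
    funext ρ
    exact (ind_eq _).symm
  rw [add_mul]
  linarith

/-- the probability that some block has no star -/
theorem hit_bound {p : ℝ} (h0 : 0 ≤ p) (h1 : p ≤ 1) :
    Ex (bw p) (fun A : Fin m × Fin k → Bool => ind (¬ Hit A)) ≤ m * (1 - p) ^ k := by
  classical
  have hpt : ∀ A : Fin m × Fin k → Bool, ind (¬ Hit A) ≤
      ∑ i : Fin m, (1 * (if ∀ il ∈ (univ.filter (fun il : Fin m × Fin k => il.1 = i)),
        A il = false then (1 : ℝ) else 0)) := by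
    intro A
    by_cases hA : Hit A
    · rw [ind_false (by simpa using hA)]
      refine Finset.sum_nonneg fun i _ => ?_
      split_ifs <;> norm_num
    · unfold Hit at hA
      obtain ⟨i, hi⟩ := not_forall.1 hA
      refine (ind_le_one _).trans ?_
      have h3 : (1 : ℝ) = (1 * (if ∀ il ∈ (univ.filter (fun il : Fin m × Fin k => il.1 = i)),
          A il = false then (1 : ℝ) else 0)) := by
        rw [if_pos, one_mul]
        intro il hil
        rw [Finset.mem_filter] at hil
        rw [← hil.2] at hi
        by_contra hne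
        apply hi
        exact ⟨il.2, by simpa using hne⟩
      calc (1 : ℝ) = (1 * (if ∀ il ∈ (univ.filter (fun il : Fin m × Fin k => il.1 = i)),
          A il = false then (1 : ℝ) else 0)) := h3
        _ ≤ _ := Finset.single_le_sum (f := fun i : Fin m =>
          (1 * (if ∀ il ∈ (univ.filter (fun il : Fin m × Fin k => il.1 = i)),
          A il = false then (1 : ℝ) else 0))) (fun i _ => by split_ifs <;> norm_num)
          (Finset.mem_univ i)
  refine (Ex_mono (bw_nonneg h0 h1) hpt).trans ?_
  rw [Ex_sum]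
  have hterm : ∀ i ∈ (univ : Finset (Fin m)), Ex (bw p) (fun A : Fin m × Fin k → Bool =>
      (1 * (if ∀ il ∈ (univ.filter (fun il : Fin m × Fin k => il.1 = i)),
        A il = false then (1 : ℝ) else 0))) ≤ (1 - p) ^ k := by
    intro i _
    have h2 := Ex_indep (I := Fin m × Fin k) (bw_sum p) (fun a => a = false)
      (univ.filter (fun il : Fin m × Fin k => il.1 = i)) (fun _ => (1 : ℝ))
      (by intro _ _ _ _; rfl)
    rw [h2, Ex_const (bw_sum p), mul_one]
    have h3 : (univ.filter (fun il : Fin m × Fin k => il.1 = i)).card = k := by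
      have h4 : (univ.filter (fun il : Fin m × Fin k => il.1 = i)) =
          (univ : Finset (Fin k)).image (fun l => (i, l)) := by
        ext il
        simp only [Finset.mem_filter, Finset.mem_univ, true_and, Finset.mem_image]
        constructor
        · intro h
          exact ⟨il.2, by rw [← h]⟩
        · rintro ⟨l, hl⟩
          rw [← hl]
      rw [h4, Finset.card_image_of_injective _ (fun l l' h => (Prod.mk.inj h).2),
        Finset.card_univ, Fintype.card_fin]
    rw [h3]
    have h5 : ∑ a ∈ univ.filter (fun a : Bool => a = false), bw p a = 1 - p := by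
      have : (univ.filter (fun a : Bool => a = false)) = {false} := by decide
      rw [this]
      simp [bw]
    rw [h5]
  refine (Finset.sum_le_card_nsmul _ _ _ hterm).trans ?_
  rw [nsmul_eq_mul, Finset.card_univ, Fintype.card_fin]

end Main

end Pool.Agent.W2helper86.OD
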