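import Pool.Agent.W2helper86.OD.Asymp

/-!
# Parity is a projection of SAT
-/

set_option autoImplicit false

namespace Pool.Agent.W2helper86.OD

open Finset DomAC0

/-- the bit `i` of `x`, or `false` -/
def bitAt {k : ℕ} (x : Fin k → Bool) (i : ℕ) : Bool := if h : i < k then x ⟨i, h⟩ else false

/-- the literals of the clauses which say that `0 = y₀`, `y_{i+1} = y_i ⊕ x_i`, `y_k = 1` -/
def lit {k : ℕ} (x : Fin k → Bool) (c v : ℕ) (s : Bool) : Bool :=
  if c < 2 * k then
    if c % 2 = 0 then
      if v = c / 2 + 1 then s else if v = c / 2 then (s == bitAt x (c / 2)) else false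
    else
      if v = c / 2 + 1 then !s else if v = c / 2 then (s == !bitAt x (c / 2)) else false
  else if c = 2 * k then (decide (v = 0) && !s)
  else if c = 2 * k + 1 then (decide (v = k) && s) else false

/-- the number of clauses -/
abbrev NN (k : ℕ) : ℕ := 2 * k + 2

/-- the formula, as a bit string -/
def satInst {k : ℕ} (x : Fin k → Bool) (j : Fin (2 * NN k ^ 2)) : Bool :=
  lit x ((j : ℕ) / 2 / NN k) ((j : ℕ) / 2 % NN k) (decide ((j : ℕ) % 2 = 1))

lemma bitAt_lt {k : ℕ} (x : Fin k → Bool) {i : ℕ} (h : i < k) : bitAt x i = x ⟨i, h⟩ := by
  unfold bitAt
  rw [dif_pos h]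

lemma satInst_proj {k : ℕ} : IsProj (satInst (k := k)) := by
  intro j
  unfold satInst
  set c := (j : ℕ) / 2 / NN k
  set v := (j : ℕ) / 2 % NN k
  set s := decide ((j : ℕ) % 2 = 1)
  unfold lit
  by_cases h1 : c < 2 * k
  · have hc : c / 2 < k := by omega
    simp only [h1, if_true, bitAt_lt _ hc]
    by_cases h2 : c % 2 = 0
    · simp only [h2, if_true]
      by_cases h3 : v = c / 2 + 1
      · left; exact ⟨s, fun x => by simp [h3]⟩
      · by_cases h4 : v = c / 2
        · right
          rcases hs : s with _ | _
          · right
            exact ⟨⟨c / 2, hc⟩, fun x => by simp [h4]⟩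
          · left
            exact ⟨⟨c / 2, hc⟩, fun x => by simp [h4]⟩
        · left; exact ⟨false, fun x => by simp [h3, h4]⟩
    · simp only [h2, if_false]
      by_cases h3 : v = c / 2 + 1
      · left; exact ⟨!s, fun x => by simp [h3]⟩
      · by_cases h4 : v = c / 2
        · right
          rcases hs : s with _ | _
          · left
            exact ⟨⟨c / 2, hc⟩, fun x => by simp [h4]⟩
          · right
            exact ⟨⟨c / 2, hc⟩, fun x => by simp [h4]⟩
        · left; exact ⟨false, fun x => by simp [h3, h4]⟩
  · left
    simp only [h1, if_false]
    exact ⟨_, fun x => rfl⟩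

lemma count_ofFn : ∀ {k : ℕ} (x : Fin k → Bool),
    (List.ofFn x).count true = (univ.filter (fun l => x l = true)).card := by
  intro k
  induction k with
  | zero => intro x; simp
  | succ k ih =>
    intro x
    rw [List.ofFn_succ, List.count_cons, ih, Finset.card_filter, Finset.card_filter,
      Fin.sum_univ_succ]
    rcases x 0 with _ | _ <;> simp [add_comm]

lemma par_iff {k : ℕ} (x : Fin k → Bool) : List.ofFn x ∈ parityLang ↔ par x = true := by
  unfold parityLang par
  rw [Set.mem_ofPred_eq, count_ofFn, decide_eq_true_eq]

/-- the parity of the first `i` bits -/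
def pre {k : ℕ} (x : Fin k → Bool) : ℕ → Bool
  | 0 => false
  | i + 1 => xor (pre x i) (bitAt x i)

lemma pre_eq {k : ℕ} (x : Fin k → Bool) : ∀ i ≤ k, pre x i =
    decide (Odd (univ.filter (fun l : Fin k => (l : ℕ) < i ∧ x l = true)).card) := by
  classical
  intro i
  induction i with
  | zero => intro _; simp [pre]
  | succ i ih =>
    intro hi
    have hik : i < k := hi
    rw [pre, ih (by omega), bitAt_lt x hik]
    rcases hx : x ⟨i, hik⟩ with _ | _
    · have h1 : (univ.filter (fun l : Fin k => (l : ℕ) < i + 1 ∧ x l = true)) =
          (univ.filter (fun l : Fin k => (l : ℕ) < i ∧ x l = true)) := by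
        ext l
        simp only [Finset.mem_filter, Finset.mem_univ, true_and]
        constructor
        · rintro ⟨h2, h3⟩
          refine ⟨?_, h3⟩
          rcases Nat.lt_succ_iff_lt_or_eq.1 h2 with h4 | h4
          · exact h4
          · exfalso
            have h5 : l = ⟨i, hik⟩ := Fin.ext h4
            rw [h5, hx] at h3
            cases h3
        · rintro ⟨h2, h3⟩
          exact ⟨by omega, h3⟩
      rw [h1]
      simp
    · have h1 : (univ.filter (fun l : Fin k => (l : ℕ) < i + 1 ∧ x l = true)) =
          insert ⟨i, hik⟩ (univ.filter (fun l : Fin k => (l : ℕ) < i ∧ x l = true)) := by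
        ext l
        simp only [Finset.mem_filter, Finset.mem_univ, true_and, Finset.mem_insert]
        constructor
        · rintro ⟨h2, h3⟩
          rcases Nat.lt_succ_iff_lt_or_eq.1 h2 with h4 | h4
          · right; exact ⟨h4, h3⟩
          · left; exact Fin.ext h4
        · rintro (h2 | ⟨h2, h3⟩)
          · rw [h2]
            exact ⟨by simp, hx⟩
          · exact ⟨by omega, h3⟩
      have h2 : (⟨i, hik⟩ : Fin k) ∉
          (univ.filter (fun l : Fin k => (l : ℕ) < i ∧ x l = true)) := by simp
      rw [h1, Finset.card_insert_of_notMem h2]
      simp only [Nat.odd_add_one, decide_not, Bool.xor_true]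

lemma pre_full {k : ℕ} (x : Fin k → Bool) : pre x k = par x := by
  rw [pre_eq x k le_rfl]
  unfold par
  congr 3
  ext l
  simp

lemma getD_satInst {k : ℕ} (x : Fin k → Bool) {c v : ℕ} (hc : c < NN k) (hv : v < NN k)
    (s : Bool) : (List.ofFn (satInst x)).getD (2 * (c * NN k + v) + s.toNat) false =
      lit x c v s := by
  have hs : s.toNat ≤ 1 := by cases s <;> simp
  have hlt : 2 * (c * NN k + v) + s.toNat < 2 * NN k ^ 2 := by
    have h1 : c * NN k + v + 1 ≤ NN k ^ 2 := by
      have : (c + 1) * NN k ≤ NN k * NN k := Nat.mul_le_mul_right _ hc
      rw [pow_two]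
      nlinarith
    omega
  rw [List.getD_eq_getElem?_getD, List.getElem?_eq_getElem (by simpa using hlt)]
  rw [Option.getD_some, List.getElem_ofFn]
  unfold satInst
  have h2 : (2 * (c * NN k + v) + s.toNat) / 2 = c * NN k + v := by omega
  have h3 : (2 * (c * NN k + v) + s.toNat) % 2 = s.toNat := by omega
  simp only [h2, h3]
  have hN : 0 < NN k := by omega
  have h4 : (c * NN k + v) / NN k = c := by
    rw [mul_comm, Nat.mul_add_div hN, Nat.div_eq_of_lt hv, add_zero]
  have h5 : (c * NN k + v) % NN k = v := by
    rw [mul_comm, Nat.mul_add_mod, Nat.mod_eq_of_lt hv]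
  rw [h4, h5]
  cases s <;> simp

theorem satInst_spec {k : ℕ} (x : Fin k → Bool) :
    List.ofFn (satInst x) ∈ cnfSat ↔ par x = true := by
  have hNk : NN k = 2 * k + 2 := rfl
  constructor
  · rintro ⟨N, hN, τ, hτ⟩
    have hNN : N = NN k := by
      rw [List.length_ofFn] at hN
      have h1 : NN k ^ 2 = N ^ 2 := by omega
      exact (Nat.pow_left_injective (n := 2) (by norm_num) h1).symm
    subst hNN
    -- the assignment is the sequence of prefix parities
    have hstep : ∀ i ≤ k, τ i = pre x i := by
      intro i
      induction i with
      | zero =>
        intro _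
        obtain ⟨v, hv, s, hw, hvs⟩ := hτ (2 * k) (by omega)
        rw [getD_satInst x (by omega) hv] at hw
        unfold lit at hw
        rw [if_neg (by omega), if_pos rfl] at hw
        simp only [Bool.and_eq_true, decide_eq_true_eq, Bool.not_eq_true'] at hw
        rw [hw.1, hw.2] at hvs
        exact hvs
      | succ i ih =>
        intro hi
        have ih' := ih (by omega)
        obtain ⟨v, hv, s, hw, hvs⟩ := hτ (2 * i) (by omega)
        obtain ⟨v', hv', s', hw', hvs'⟩ := hτ (2 * i + 1) (by omega)
        rw [getD_satInst x (by omega) hv] at hw
        rw [getD_satInst x (by omega) hv'] at hw'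
        unfold lit at hw hw'
        rw [if_pos (by omega), if_pos (by omega)] at hw
        rw [if_pos (by omega), if_neg (by omega)] at hw'
        have e1 : 2 * i / 2 = i := by omega
        have e2 : (2 * i + 1) / 2 = i := by omega
        rw [e1] at hw
        rw [e2] at hw'
        rw [pre]
        rcases hb : bitAt x i with _ | _
        · rw [hb] at hw hw'
          simp only [Bool.xor_false]
          -- clauses: (y_{i+1} ∨ ¬ y_i), (¬ y_{i+1} ∨ y_i)
          by_cases h1 : v = i + 1
          · rw [if_pos h1] at hw
            rw [h1, hw] at hvs
            by_cases h2 : v' = i + 1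
            · rw [if_pos h2] at hw'
              rw [h2] at hvs'
              rw [hvs] at hvs'
              rw [← hvs'] at hw'
              simp at hw'
            · rw [if_neg h2] at hw'
              by_cases h3 : v' = i
              · rw [if_pos h3] at hw'
                rw [h3] at hvs'
                simp at hw'
                rw [hw'] at hvs'
                rw [hvs, ← ih', hvs']
              · rw [if_neg h3] at hw'
                cases hw'
          · rw [if_neg h1] at hw
            by_cases h3 : v = i
            · rw [if_pos h3] at hw
              rw [h3] at hvs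
              simp at hw
              rw [hw] at hvs
              by_cases h2 : v' = i + 1
              · rw [if_pos h2] at hw'
                rw [h2] at hvs'
                simp at hw'
                rw [hw'] at hvs'
                rw [hvs', ← ih', hvs]
              · rw [if_neg h2] at hw'
                by_cases h4 : v' = i
                · rw [if_pos h4] at hw'
                  rw [h4, hvs] at hvs'
                  rw [← hvs'] at hw'
                  simp at hw'
                · rw [if_neg h4] at hw'
                  cases hw'
            · rw [if_neg h3] at hw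
              cases hw
        · rw [hb] at hw hw'
          simp only [Bool.xor_true]
          by_cases h1 : v = i + 1
          · rw [if_pos h1] at hw
            rw [h1, hw] at hvs
            by_cases h2 : v' = i + 1
            · rw [if_pos h2] at hw'
              rw [h2] at hvs'
              rw [hvs] at hvs'
              rw [← hvs'] at hw'
              simp at hw'
            · rw [if_neg h2] at hw'
              by_cases h3 : v' = i
              · rw [if_pos h3] at hw'
                rw [h3] at hvs'
                simp at hw'
                rw [hw'] at hvs'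
                rw [hvs, ← ih', hvs']
                rfl
              · rw [if_neg h3] at hw'
                cases hw'
          · rw [if_neg h1] at hw
            by_cases h3 : v = i
            · rw [if_pos h3] at hw
              rw [h3] at hvs
              simp at hw
              rw [hw] at hvs
              by_cases h2 : v' = i + 1
              · rw [if_pos h2] at hw'
                rw [h2] at hvs'
                simp at hw'
                rw [hw'] at hvs'
                rw [hvs', ← ih', hvs]
                rfl
              · rw [if_neg h2] at hw'
                by_cases h4 : v' = i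
                · rw [if_pos h4] at hw'
                  rw [h4, hvs] at hvs'
                  rw [← hvs'] at hw'
                  simp at hw'
                · rw [if_neg h4] at hw'
                  cases hw'
            · rw [if_neg h3] at hw
              cases hw
    obtain ⟨v, hv, s, hw, hvs⟩ := hτ (2 * k + 1) (by omega)
    rw [getD_satInst x (by omega) hv] at hw
    unfold lit at hw
    rw [if_neg (by omega), if_neg (by omega), if_pos rfl] at hw
    simp only [Bool.and_eq_true, decide_eq_true_eq] at hw
    rw [hw.1, hw.2, hstep k le_rfl, pre_full] at hvs
    exact hvs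
  · intro hx
    refine ⟨NN k, by simp, pre x, ?_⟩
    intro c hc
    by_cases h1 : c < 2 * k
    · have hck : c / 2 < k := by omega
      by_cases h2 : c % 2 = 0
      · by_cases h3 : pre x (c / 2 + 1) = true
        · refine ⟨c / 2 + 1, by omega, true, ?_, h3⟩
          rw [getD_satInst x hc (by omega)]
          unfold lit
          rw [if_pos h1, if_pos h2, if_pos rfl]
        · refine ⟨c / 2, by omega, bitAt x (c / 2), ?_, ?_⟩
          · rw [getD_satInst x hc (by omega)]
            unfold lit
            rw [if_pos h1, if_pos h2, if_neg (by omega), if_pos rfl]
            simp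
          · rw [Bool.not_eq_true, pre] at h3
            revert h3
            rcases pre x (c / 2) with _ | _ <;> rcases bitAt x (c / 2) with _ | _ <;> simp
      · by_cases h3 : pre x (c / 2 + 1) = true
        · refine ⟨c / 2, by omega, !bitAt x (c / 2), ?_, ?_⟩
          · rw [getD_satInst x hc (by omega)]
            unfold lit
            rw [if_pos h1, if_neg h2, if_neg (by omega), if_pos rfl]
            simp
          · rw [pre] at h3
            revert h3
            rcases pre x (c / 2) with _ | _ <;> rcases bitAt x (c / 2) with _ | _ <;> simp
        · refine ⟨c / 2 + 1, by omega, false, ?_, by simpa using h3⟩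
          rw [getD_satInst x hc (by omega)]
          unfold lit
          rw [if_pos h1, if_neg h2, if_pos rfl]
          rfl
    · by_cases h2 : c = 2 * k
      · refine ⟨0, by omega, false, ?_, rfl⟩
        rw [getD_satInst x hc (by omega)]
        unfold lit
        rw [if_neg h1, if_pos h2]
        simp
      · refine ⟨k, by omega, true, ?_, by rw [pre_full]; exact hx⟩
        rw [getD_satInst x hc (by omega)]
        unfold lit
        rw [if_neg h1, if_neg h2, if_pos (by omega)]
        simp

end Pool.Agent.W2helper86.OD
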